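import Pool.Agent.T9h68.UM.Main

/-!
# Uniform mixing on integral Cayley graphs: consequences
-/

set_option autoImplicit false

open Finset Polynomial
open scoped Matrix
open scoped ComplexConjugate

namespace Pool.Agent.T9h68.UM

variable {q d : ℕ}

/-- a rational algebraic integer in `ℂ` is an integer -/
theorem int_of_rat {w : ℂ} {r : ℚ} (hw : IsIntegral ℤ w) (hr : w = r) : ∃ k : ℤ, r = k := by
  have h1 : IsIntegral ℤ ((algebraMap ℚ ℂ) r) := by
    have : (algebraMap ℚ ℂ) r = w := by rw [hr]; rfl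
    rw [this]
    exact hw
  have h2 : IsIntegral ℤ r := (isIntegral_algebraMap_iff (algebraMap ℚ ℂ).injective).1 h1
  obtain ⟨k, hk⟩ := IsIntegrallyClosed.isIntegral_iff.1 h2
  exact ⟨k, hk.symm⟩

theorem zt_pow (t : ℝ) (k : ℕ) : zt t ^ k + (zt t)⁻¹ ^ k = 2 * (Real.cos (k * t) : ℂ) := by
  unfold zt
  rw [← Complex.exp_neg, ← Complex.exp_nat_mul, ← Complex.exp_nat_mul, Complex.ofReal_cos,
    Complex.cos]
  have h1 : (k : ℂ) * (Complex.I * t) = ((k * t : ℝ) : ℂ) * Complex.I := by push_cast; ring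
  have h2 : (k : ℂ) * -(Complex.I * t) = -((k * t : ℝ) : ℂ) * Complex.I := by push_cast; ring
  rw [h1, h2]
  ring

theorem rat_of_cos (t : ℝ) (hz : IsIntegral ℤ (zt t)) (hz' : IsIntegral ℤ (zt t)⁻¹) (k : ℕ)
    (hk : 1 ≤ k) (r : ℚ) (hr : Real.cos (k * t) = r) : ∃ s : ℚ, t = s * Real.pi := by
  have h1 : IsIntegral ℤ (zt t ^ k + (zt t)⁻¹ ^ k) := (hz.pow k).add (hz'.pow k)
  have h2 : zt t ^ k + (zt t)⁻¹ ^ k = ((2 * r : ℚ) : ℂ) := by
    rw [zt_pow, hr]
    push_cast
    rfl
  obtain ⟨j, hj⟩ := int_of_rat h1 h2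
  have h3 : 2 * Real.cos (k * t) = j := by
    rw [hr]
    have : ((2 * r : ℚ) : ℝ) = ((j : ℚ) : ℝ) := by rw [hj]
    push_cast at this
    exact this
  have h4 : -2 ≤ j := by
    have h := Real.neg_one_le_cos (k * t)
    have : (-2 : ℝ) ≤ j := by linarith
    exact_mod_cast this
  have h5 : j ≤ 2 := by
    have h := Real.cos_le_one (k * t)
    have : (j : ℝ) ≤ 2 := by linarith
    exact_mod_cast this
  have key : ∃ s : ℚ, Real.cos (k * t) = Real.cos (s * Real.pi) := by
    have hcases : j = -2 ∨ j = -1 ∨ j = 0 ∨ j = 1 ∨ j = 2 := by omega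
    rcases hcases with h | h | h | h | h
    · refine ⟨1, ?_⟩
      rw [h] at h3
      push_cast at h3 ⊢
      rw [one_mul, Real.cos_pi]
      linarith
    · refine ⟨2 / 3, ?_⟩
      rw [h] at h3
      push_cast at h3 ⊢
      have h6 : (2 / 3 : ℝ) * Real.pi = Real.pi - Real.pi / 3 := by ring
      rw [h6, Real.cos_pi_sub, Real.cos_pi_div_three]
      linarith
    · refine ⟨1 / 2, ?_⟩
      rw [h] at h3
      push_cast at h3 ⊢
      have h6 : (1 / 2 : ℝ) * Real.pi = Real.pi / 2 := by ring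
      rw [h6, Real.cos_pi_div_two]
      linarith
    · refine ⟨1 / 3, ?_⟩
      rw [h] at h3
      push_cast at h3 ⊢
      have h6 : (1 / 3 : ℝ) * Real.pi = Real.pi / 3 := by ring
      rw [h6, Real.cos_pi_div_three]
      linarith
    · refine ⟨0, ?_⟩
      rw [h] at h3
      push_cast at h3 ⊢
      rw [zero_mul, Real.cos_zero]
      linarith
  obtain ⟨s, hs⟩ := key
  have hk0 : (k : ℝ) ≠ 0 := by positivity
  obtain ⟨i, hi | hi⟩ := Real.cos_eq_cos_iff.1 hs
  · refine ⟨(s - 2 * i) / k, ?_⟩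
    push_cast
    field_simp
    linarith
  · refine ⟨(2 * i - s) / k, ?_⟩
    push_cast
    field_simp
    linarith

/-- two-valued differences -/
theorem two_valued (C : Finset (Gr q d)) (t : ℝ) (hmix : Mixes C t) (m : Gr q d → ℤ)
    (hm : ∀ a, ev C a = m a) (c : Gr q d) (hc : c ≠ 0) (g : ℕ) (hg : 1 ≤ g)
    (h : ∀ b, m (b + c) - m b = 0 ∨ m (b + c) - m b = g ∨ m (b + c) - m b = -g) :
    ∃ s : ℚ, t = s * Real.pi := by
  obtain ⟨hz, hz'⟩ := units C t hmix m hm
  have h1 := auto C t hmix m hm c hc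
  have h2 : ∑ b, ((zt t ^ (m (b + c) - m b)) + conj (zt t ^ (m (b + c) - m b))) = 0 := by
    rw [sum_add_distrib, ← map_sum, h1]
    simp
  set Z := univ.filter fun b => m (b + c) - m b = 0 with hZ
  set w := zt t ^ g + (zt t)⁻¹ ^ g with hw
  have h3 : ∀ b, (zt t ^ (m (b + c) - m b)) + conj (zt t ^ (m (b + c) - m b)) =
      if m (b + c) - m b = 0 then 2 else w := by
    intro b
    rw [map_zpow₀, conj_zt]
    rcases h b with h4 | h4 | h4
    · rw [h4, if_pos rfl]
      norm_num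
    · rw [if_neg (by omega), h4, zpow_natCast, zpow_natCast]
    · rw [if_neg (by omega), h4, zpow_neg, zpow_natCast, zpow_neg, zpow_natCast, inv_pow, inv_inv,
        add_comm, hw, inv_pow]
  rw [sum_congr rfl fun b _ => h3 b, sum_ite, sum_const, sum_const, nsmul_eq_mul,
    nsmul_eq_mul] at h2
  set W := univ.filter fun b => ¬ m (b + c) - m b = 0 with hW
  have hcard : Z.card + W.card = Fintype.card (Gr q d) := by
    rw [hZ, hW, card_filter_add_card_filter_not, card_univ]
  have hpos : 0 < Fintype.card (Gr q d) := Fintype.card_pos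
  have hW0 : W.card ≠ 0 := by
    intro h0
    rw [h0] at h2 hcard
    have h5 : (Z.card : ℂ) * 2 = 0 := by
      rw [Nat.cast_zero, zero_mul, add_zero] at h2
      exact h2
    have h6 : (Z.card : ℂ) = 0 := by
      rcases mul_eq_zero.1 h5 with h7 | h7
      · exact h7
      · norm_num at h7
    have h7 : Z.card = 0 := by exact_mod_cast h6
    omega
  have h4 : w = 2 * (Real.cos (g * t) : ℂ) := zt_pow t g
  rw [h4] at h2
  have h5 : (Z.card : ℝ) * 2 + W.card * (2 * Real.cos (g * t)) = 0 := by exact_mod_cast h2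
  refine rat_of_cos t hz hz' g hg (-(Z.card : ℚ) / W.card) ?_
  have hW1 : (W.card : ℝ) ≠ 0 := by exact_mod_cast hW0
  push_cast
  rw [eq_div_iff hW1]
  linarith

/-- the minimal polynomial -/
theorem minpoly_props (C : Finset (Gr q d)) (t : ℝ) (hmix : Mixes C t) (m : Gr q d → ℤ)
    (hm : ∀ a, ev C a = m a) :
    (minpoly ℤ (zt t)).eval 1 ∣ ((q : ℤ) + 2) ^ (d + 1) ∧
      ∀ x : ℝ, 0 < x → aeval x (minpoly ℤ (zt t)) ≠ 0 := by
  obtain ⟨hz, -⟩ := units C t hmix m hm
  obtain ⟨c, hc⟩ := exists_ne (q := q) (d := d)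
  have h1 := auto C t hmix m hm c hc
  set B : ℤ := ∑ b, |m b| with hB
  have hb : ∀ b, |m b| ≤ B := fun b => single_le_sum (fun i _ => abs_nonneg (m i)) (mem_univ b)
  have hnn : ∀ b, 0 ≤ m (b + c) - m b + 2 * B := by
    intro b
    have h2 := hb (b + c)
    have h3 := hb b
    have h4 := neg_abs_le (m (b + c))
    have h5 := le_abs_self (m b)
    linarith
  set g : ℤ[X] := ∑ b, X ^ (m (b + c) - m b + 2 * B).toNat with hg
  have h2 : aeval (zt t) g = 0 := by
    rw [hg, map_sum]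
    have h3 : ∀ b, aeval (zt t) ((X : ℤ[X]) ^ (m (b + c) - m b + 2 * B).toNat) =
        zt t ^ (m (b + c) - m b) * zt t ^ (2 * B) := by
      intro b
      rw [map_pow, aeval_X, ← zpow_add₀ (zt_ne t), ← zpow_natCast, Int.toNat_of_nonneg (hnn b)]
    rw [sum_congr rfl fun b _ => h3 b, ← sum_mul, h1, zero_mul]
  obtain ⟨h, hh⟩ := minpoly.isIntegrallyClosed_dvd hz h2
  constructor
  · have h3 : g.eval 1 = ((q : ℤ) + 2) ^ (d + 1) := by
      rw [hg, eval_finsetSum]
      simp only [eval_pow, eval_X, one_pow, sum_const, card_univ, nsmul_eq_mul, mul_one]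
      rw [card_Gr]
      push_cast
      rfl
    rw [← h3, hh, eval_mul]
    exact dvd_mul_right _ _
  · intro x hx h3
    have h4 : aeval x g = 0 := by rw [hh, map_mul, h3, zero_mul]
    rw [hg, map_sum] at h4
    have h5 : 0 < ∑ b : Gr q d, aeval x ((X : ℤ[X]) ^ (m (b + c) - m b + 2 * B).toNat) := by
      refine sum_pos (fun b _ => ?_) univ_nonempty
      rw [map_pow, aeval_X]
      positivity
    exact h5.ne' h4

theorem chsum_int {x : ℂ} (h : x ^ 4 = 1 ∨ x ^ 6 = 1) : ∃ k : ℤ, x + x⁻¹ = k := by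
  have hx : x ≠ 0 := by
    rintro rfl
    rcases h with h | h <;> norm_num at h
  rcases h with h | h
  · have h1 : (x - 1) * ((x + 1) * (x ^ 2 + 1)) = 0 := by linear_combination h
    rcases mul_eq_zero.1 h1 with h2 | h2
    · refine ⟨2, ?_⟩
      rw [sub_eq_zero.1 h2]
      norm_num
    rcases mul_eq_zero.1 h2 with h3 | h3
    · refine ⟨-2, ?_⟩
      rw [eq_neg_of_add_eq_zero_left h3]
      norm_num
    · refine ⟨0, ?_⟩
      field_simp
      push_cast
      linear_combination h3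
  · have h1 : (x - 1) * ((x + 1) * ((x ^ 2 + x + 1) * (x ^ 2 - x + 1))) = 0 := by
      linear_combination h
    rcases mul_eq_zero.1 h1 with h2 | h2
    · refine ⟨2, ?_⟩
      rw [sub_eq_zero.1 h2]
      norm_num
    rcases mul_eq_zero.1 h2 with h3 | h3
    · refine ⟨-2, ?_⟩
      rw [eq_neg_of_add_eq_zero_left h3]
      norm_num
    rcases mul_eq_zero.1 h3 with h4 | h4
    · refine ⟨-1, ?_⟩
      field_simp
      push_cast
      linear_combination h4
    · refine ⟨1, ?_⟩
      field_simp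
      push_cast
      linear_combination h4

theorem isIntegral_ch (a x : Gr q d) : IsIntegral ℤ (ch q d a x) := by
  refine IsIntegral.of_pow (n := q + 2) (by omega) ?_
  rw [chars.root]
  exact isIntegral_one

/-- the eigenvalues are integers for `q = 2, 3, 4, 6` -/
theorem ev_int (C : Finset (Gr q d)) (hC : ∀ c ∈ C, -c ∈ C) (hq : q + 2 ∣ 4 ∨ q + 2 ∣ 6)
    (a : Gr q d) : ∃ k : ℤ, ev C a = k := by
  have h1 : ∀ c, ∃ k : ℤ, ch q d a c + ch q d a (-c) = k := by
    intro c
    have h2 : ch q d a (-c) = (ch q d a c)⁻¹ := by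
      have := chars.inv a c
      exact eq_inv_of_mul_eq_one_right this
    rw [h2]
    refine chsum_int ?_
    have h3 := chars.root a c
    rcases hq with ⟨k, hk⟩ | ⟨k, hk⟩
    · left; rw [hk, pow_mul, h3, one_pow]
    · right; rw [hk, pow_mul, h3, one_pow]
  choose f hf using h1
  have h2 : ev C a = ∑ c ∈ C, ch q d a (-c) := by
    unfold ev
    refine sum_nbij' (fun c => -c) (fun c => -c) hC hC (fun c _ => neg_neg c)
      (fun c _ => neg_neg c) (fun c _ => by rw [neg_neg])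
  have h3 : 2 * ev C a = ((∑ c ∈ C, f c : ℤ) : ℂ) := by
    rw [two_mul]
    nth_rewrite 2 [h2]
    unfold ev
    rw [← sum_add_distrib]
    push_cast
    exact sum_congr rfl fun c _ => hf c
  have h4 : IsIntegral ℤ (ev C a) := IsIntegral.sum _ fun c _ => isIntegral_ch a c
  have h5 : ev C a = (((∑ c ∈ C, f c : ℤ) / 2 : ℚ) : ℂ) := by
    push_cast at h3 ⊢
    rw [← h3]
    ring
  obtain ⟨k, hk⟩ := int_of_rat h4 h5
  refine ⟨k, ?_⟩
  rw [h5, hk]
  push_cast
  rfl

/-- the eigenvalues are in the spectrum -/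
theorem ev_spec (C : Finset (Gr q d)) (a : Gr q d) : ev C a ∈ spectrum ℂ (adj C) := by
  intro hu
  have hu' : IsUnit (algebraMap ℂ (Matrix (Gr q d) (Gr q d) ℂ) (ev C a) - adj C) := hu
  obtain ⟨M, hM⟩ := hu'
  have h1 : (algebraMap ℂ (Matrix (Gr q d) (Gr q d) ℂ) (ev C a) - adj C) *ᵥ ch q d a = 0 := by
    rw [Matrix.sub_mulVec, adj_ch, Algebra.algebraMap_eq_smul_one, Matrix.smul_mulVec,
      Matrix.one_mulVec, sub_self]
  rw [← hM] at h1
  have h2 : ch q d a = 0 := by
    have h3 := congrArg (fun v => (M⁻¹ : (Matrix (Gr q d) (Gr q d) ℂ)ˣ).1 *ᵥ v) h1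
    simp only [Matrix.mulVec_mulVec, Units.inv_mul, Matrix.one_mulVec, Matrix.mulVec_zero] at h3
    exact h3
  have h3 := congrFun h2 0
  rw [chars.zero_right] at h3
  exact one_ne_zero h3

end Pool.Agent.T9h68.UM
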