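import Pool.Agent.T9h68.UM.Cons

/-!
# Uniform mixing on cubelike graphs: zero-sum subsets
-/

set_option autoImplicit false

open Finset Matrix

namespace Pool.Agent.T9h68.UM

variable {d : ℕ}

/-- the zero-sum subsets of `D` -/
def zs (D : Finset (Gr 0 d)) : Finset (Finset (Gr 0 d)) :=
  D.powerset.filter fun E => ∑ c ∈ E, c = 0

/-- the elements of `C` which are not orthogonal to `b` -/
def Db (C : Finset (Gr 0 d)) (b : Gr 0 d) : Finset (Gr 0 d) := C.filter fun c => b ⬝ᵥ c ≠ 0

theorem ch_sq (a c : Gr 0 d) : ch 0 d a c = 1 ∨ ch 0 d a c = -1 := by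
  have h := (chars (q := 0) (d := d)).root a c
  have h1 : (ch 0 d a c - 1) * (ch 0 d a c + 1) = 0 := by
    have h2 : ch 0 d a c ^ 2 = 1 := h
    linear_combination h2
  rcases mul_eq_zero.1 h1 with h2 | h2
  · left; exact sub_eq_zero.1 h2
  · right; exact eq_neg_of_add_eq_zero_left h2

theorem ch_b {b c : Gr 0 d} : ch 0 d b c = if b ⬝ᵥ c ≠ 0 then -1 else 1 := by
  split_ifs with h
  · rcases ch_sq b c with h1 | h1
    · exfalso
      refine h ?_
      unfold ch at h1
      have h2 : (ZMod.stdAddChar (b ⬝ᵥ c) : ℂ) = ZMod.stdAddChar (0 : ZMod (0 + 2)) := by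
        rw [h1, AddChar.map_zero_eq_one]
      exact ZMod.injective_stdAddChar h2
    · exact h1
  · push Not at h
    unfold ch
    rw [h, AddChar.map_zero_eq_one]

theorem exp_sign (t : ℝ) {x : ℂ} (hx : x = 1 ∨ x = -1) :
    Complex.exp (Complex.I * t * (-2 * x)) =
      (-Complex.I * Real.sin (2 * t)) * x + (Real.cos (2 * t) : ℂ) := by
  rcases hx with rfl | rfl
  · have : Complex.I * (t : ℂ) * (-2 * 1) = ((-(2 * t) : ℝ) : ℂ) * Complex.I := by
      push_cast; ring
    rw [this, Complex.exp_mul_I, ← Complex.ofReal_cos, ← Complex.ofReal_sin, Real.cos_neg,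
      Real.sin_neg]
    push_cast
    ring
  · have : Complex.I * (t : ℂ) * (-2 * -1) = ((2 * t : ℝ) : ℂ) * Complex.I := by
      push_cast; ring
    rw [this, Complex.exp_mul_I, ← Complex.ofReal_cos, ← Complex.ofReal_sin]
    ring

theorem ev_diff (C : Finset (Gr 0 d)) (a b : Gr 0 d) :
    ev C (a + b) - ev C a = ∑ c ∈ Db C b, -2 * ch 0 d a c := by
  unfold ev Db
  rw [← sum_sub_distrib, sum_filter]
  refine sum_congr rfl fun c _ => ?_
  rw [chars.add_left, ch_b (b := b)]
  split_ifs with h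
  · ring
  · ring

theorem ch_sum (a : Gr 0 d) (E : Finset (Gr 0 d)) : ∏ c ∈ E, ch 0 d a c = ch 0 d a (∑ c ∈ E, c) := by
  classical
  induction E using Finset.induction_on with
  | empty => rw [prod_empty, sum_empty, chars.zero_right]
  | insert x s hx ih => rw [prod_insert hx, sum_insert hx, chars.add_right, ih]

theorem sum_ch_left (x : Gr 0 d) : ∑ a, ch 0 d a x = if x = 0 then (2 : ℂ) ^ (d + 1) else 0 := by
  split_ifs with h
  · subst h
    simp only [chars.zero_right, sum_const, card_univ, nsmul_eq_mul, mul_one]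
    rw [card_Gr]
    push_cast
    norm_num
  · rw [← (chars (q := 0) (d := d)).ortho x h]
    exact sum_congr rfl fun a _ => chars.symm a x

theorem cube_sum (C : Finset (Gr 0 d)) (t : ℝ) (hmix : Mixes C t) (m : Gr 0 d → ℤ)
    (hm : ∀ a, ev C a = m a) (b : Gr 0 d) (hb : b ≠ 0) :
    ∑ E ∈ zs (Db C b), (-Complex.I * Real.sin (2 * t)) ^ E.card *
      (Real.cos (2 * t) : ℂ) ^ ((Db C b).card - E.card) = 0 := by
  classical
  have h1 := auto C t hmix m hm b hb
  have h2 : ∀ a, zt t ^ (m (a + b) - m a) =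
      ∑ E ∈ (Db C b).powerset, ((-Complex.I * Real.sin (2 * t)) ^ E.card *
        (Real.cos (2 * t) : ℂ) ^ ((Db C b).card - E.card)) * ch 0 d a (∑ c ∈ E, c) := by
    intro a
    rw [← exp_zt]
    have h3 : ((m (a + b) - m a : ℤ) : ℂ) = ∑ c ∈ Db C b, -2 * ch 0 d a c := by
      rw [← ev_diff, hm, hm]
      push_cast
      rfl
    rw [h3, mul_sum, Complex.exp_sum, prod_congr rfl fun c _ => exp_sign t (ch_sq a c), prod_add]
    refine sum_congr rfl fun E hE => ?_
    rw [prod_mul_distrib, prod_const, prod_const, ch_sum, card_sdiff_of_subset (mem_powerset.1 hE)]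
    ring
  rw [sum_congr rfl fun a _ => h2 a, sum_comm] at h1
  simp only [← mul_sum, sum_ch_left] at h1
  have h4 : (∑ E ∈ zs (Db C b), (-Complex.I * Real.sin (2 * t)) ^ E.card *
      (Real.cos (2 * t) : ℂ) ^ ((Db C b).card - E.card)) * (2 : ℂ) ^ (d + 1) = 0 := by
    rw [← h1]
    unfold zs
    rw [sum_filter, sum_mul]
    refine sum_congr rfl fun E _ => ?_
    split_ifs with h
    · rfl
    · simp
  rcases mul_eq_zero.1 h4 with h5 | h5
  · exact h5
  · exact absurd h5 (pow_ne_zero _ two_ne_zero)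

end Pool.Agent.T9h68.UM
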