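import Pool.Agent.T9h68.UM.Cube

/-!
# Uniform mixing on cubelike graphs: consequences
-/

set_option autoImplicit false

open Finset Matrix Polynomial

namespace Pool.Agent.T9h68.UM

variable {d : ℕ}

theorem empty_mem_zs (D : Finset (Gr 0 d)) : ∅ ∈ zs D := by
  unfold zs
  rw [mem_filter]
  exact ⟨empty_mem_powerset _, sum_empty⟩

theorem sub_of_zs {D E : Finset (Gr 0 d)} (h : E ∈ zs D) : E ⊆ D ∧ ∑ c ∈ E, c = 0 := by
  unfold zs at h
  rw [mem_filter, mem_powerset] at h
  exact h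

theorem add_self_Gr (x : Gr 0 d) : x + x = 0 := by
  funext i
  exact CharTwo.add_self_eq_zero (R := ZMod 2) (x i)

/-- zero-sum subsets of `Db C b` have an even number of elements -/
theorem even_of_zs {C : Finset (Gr 0 d)} {b : Gr 0 d} {E : Finset (Gr 0 d)} (h : E ∈ zs (Db C b)) :
    Even E.card := by
  obtain ⟨h1, h2⟩ := sub_of_zs h
  have h3 := ch_sum b E
  rw [h2, chars.zero_right] at h3
  have h4 : ∀ c ∈ E, ch 0 d b c = -1 := by
    intro c hc
    have h5 := h1 hc
    unfold Db at h5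
    rw [mem_filter] at h5
    rw [ch_b, if_pos h5.2]
  rw [prod_congr rfl h4, prod_const] at h3
  by_contra hodd
  rw [Nat.not_even_iff_odd] at hodd
  rw [hodd.neg_one_pow] at h3
  norm_num at h3

theorem two_of_zs {E : Finset (Gr 0 d)} (h : ∑ c ∈ E, c = (0 : Gr 0 d)) : E.card ≠ 2 := by
  classical
  intro h2
  obtain ⟨x, y, hxy, rfl⟩ := card_eq_two.1 h2
  rw [sum_pair hxy] at h
  refine hxy ?_
  have h3 := add_self_Gr y
  exact add_right_cancel (h.trans h3.symm)

theorem sin_ne (C : Finset (Gr 0 d)) (t : ℝ) (hmix : Mixes C t) (m : Gr 0 d → ℤ)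
    (hm : ∀ a, ev C a = m a) : Real.sin (2 * t) ≠ 0 := by
  classical
  intro hs
  obtain ⟨b, hb⟩ := exists_ne (q := 0) (d := d)
  have h := cube_sum C t hmix m hm b hb
  rw [hs, sum_eq_single ∅] at h
  · rw [card_empty, pow_zero, one_mul] at h
    have h1 := eq_zero_of_pow_eq_zero h
    have h2 : Real.cos (2 * t) = 0 := by exact_mod_cast h1
    have h3 := Real.sin_sq_add_cos_sq (2 * t)
    rw [hs, h2] at h3
    norm_num at h3
  · intro E _ hE
    have : E.card ≠ 0 := fun h => hE (card_eq_zero.1 h)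
    rw [Complex.ofReal_zero, mul_zero, zero_pow this, zero_mul]
  · intro h; exact absurd (empty_mem_zs _) h

/-- `i cot (2t)` is an algebraic integer -/
theorem cot_int (C : Finset (Gr 0 d)) (t : ℝ) (hmix : Mixes C t) (m : Gr 0 d → ℤ)
    (hm : ∀ a, ev C a = m a) :
    IsIntegral ℤ ((Real.cos (2 * t) : ℂ) / (-Complex.I * Real.sin (2 * t))) := by
  classical
  obtain ⟨b, hb⟩ := exists_ne (q := 0) (d := d)
  have h := cube_sum C t hmix m hm b hb
  have hs := sin_ne C t hmix m hm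
  have hβ : -Complex.I * (Real.sin (2 * t) : ℂ) ≠ 0 :=
    mul_ne_zero (neg_ne_zero.2 Complex.I_ne_zero) (by exact_mod_cast hs)
  set β := -Complex.I * (Real.sin (2 * t) : ℂ) with hβ'
  set α := (Real.cos (2 * t) : ℂ) with hα'
  set N := (Db C b).card with hN
  have hle : ∀ E ∈ zs (Db C b), E.card ≤ N := fun E hE => card_le_card (sub_of_zs hE).1
  set p : ℤ[X] := ∑ E ∈ (zs (Db C b)).erase ∅, X ^ (N - E.card) with hp
  have hdeg : p.degree < N := by
    rw [← Polynomial.mem_degreeLT]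
    refine Submodule.sum_mem _ fun E hE => ?_
    rw [mem_erase] at hE
    rw [Polynomial.mem_degreeLT, degree_X_pow]
    have h1 : E.card ≠ 0 := fun h => hE.1 (card_eq_zero.1 h)
    have h2 := hle E hE.2
    exact_mod_cast (by omega : N - E.card < N)
  refine ⟨X ^ N + p, monic_X_pow_add hdeg, ?_⟩
  rw [← aeval_def, map_add, map_pow, aeval_X, hp, map_sum]
  have h3 : ∀ E ∈ zs (Db C b), (α / β) ^ (N - E.card) * β ^ N = β ^ E.card * α ^ (N - E.card) := by
    intro E hE
    have h4 := hle E hE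
    rw [div_pow, div_mul_eq_mul_div, div_eq_iff (pow_ne_zero _ hβ)]
    have h5 : β ^ N = β ^ E.card * β ^ (N - E.card) := by rw [← pow_add]; congr 1; omega
    rw [h5]
    ring
  have h6 : ((α / β) ^ N + ∑ E ∈ (zs (Db C b)).erase ∅, aeval (α / β) ((X : ℤ[X]) ^ (N - E.card))) *
      β ^ N = 0 := by
    rw [← h, ← add_sum_erase _ _ (empty_mem_zs (Db C b)), add_mul, sum_mul]
    congr 1
    · have := h3 ∅ (empty_mem_zs _)
      rw [card_empty, Nat.sub_zero] at this
      rw [this, card_empty, Nat.sub_zero]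
    · refine sum_congr rfl fun E hE => ?_
      rw [map_pow, aeval_X, h3 E (mem_of_mem_erase hE)]
  exact (mul_eq_zero.1 h6).resolve_right (pow_ne_zero _ hβ)

/-- the equation for `tan (2t)` -/
theorem tan_sum (C : Finset (Gr 0 d)) (t : ℝ) (hmix : Mixes C t) (m : Gr 0 d → ℤ)
    (hm : ∀ a, ev C a = m a) (b : Gr 0 d) (hb : b ≠ 0) (hα : Real.cos (2 * t) ≠ 0) :
    ∑ E ∈ zs (Db C b), (-Complex.I * ((Real.sin (2 * t) / Real.cos (2 * t) : ℝ) : ℂ)) ^ E.card =
      0 := by
  have h := cube_sum C t hmix m hm b hb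
  have hα' : (Real.cos (2 * t) : ℂ) ≠ 0 := by exact_mod_cast hα
  have hle : ∀ E ∈ zs (Db C b), E.card ≤ (Db C b).card := fun E hE =>
    card_le_card (sub_of_zs hE).1
  set T : ℝ := Real.sin (2 * t) / Real.cos (2 * t) with hT
  have h2 : (∑ E ∈ zs (Db C b), (-Complex.I * (T : ℂ)) ^ E.card) *
      (Real.cos (2 * t) : ℂ) ^ (Db C b).card = 0 := by
    rw [← h, sum_mul]
    refine sum_congr rfl fun E hE => ?_
    have h3 : (Real.cos (2 * t) : ℂ) ^ (Db C b).card =
        (Real.cos (2 * t) : ℂ) ^ E.card * (Real.cos (2 * t) : ℂ) ^ ((Db C b).card - E.card) := by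
      rw [← pow_add]; congr 1; have := hle E hE; omega
    have h4 : (-Complex.I * (T : ℂ)) * (Real.cos (2 * t) : ℂ) = -Complex.I * Real.sin (2 * t) := by
      rw [hT, Complex.ofReal_div, mul_assoc, div_mul_cancel₀ _ hα']
    rw [h3, ← mul_assoc, ← mul_pow, h4]
  exact (mul_eq_zero.1 h2).resolve_right (pow_ne_zero _ hα')

/-- all zero-sum subsets have a number of elements divisible by four -/
theorem four (C : Finset (Gr 0 d)) (t : ℝ) (hmix : Mixes C t) (m : Gr 0 d → ℤ)
    (hm : ∀ a, ev C a = m a) (b : Gr 0 d) (hb : b ≠ 0)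
    (hall : ∀ E ∈ zs (Db C b), 4 ∣ E.card) : Real.cos (2 * t) = 0 := by
  by_contra hα
  have h1 := tan_sum C t hmix m hm b hb hα
  set T : ℝ := Real.sin (2 * t) / Real.cos (2 * t) with hT
  have h2 : ∀ E ∈ zs (Db C b), (-Complex.I * (T : ℂ)) ^ E.card = ((T ^ E.card : ℝ) : ℂ) := by
    intro E hE
    obtain ⟨k, hk⟩ := hall E hE
    rw [hk, mul_pow, pow_mul (-Complex.I), pow_mul]
    have h3 : (-Complex.I) ^ 4 = 1 := by
      rw [neg_pow, Complex.I_pow_four]; norm_num
    rw [h3, one_pow, one_mul]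
    push_cast
    rw [pow_mul]
  rw [sum_congr rfl h2] at h1
  have h3 : ∑ E ∈ zs (Db C b), T ^ E.card = 0 := by exact_mod_cast h1
  have h4 : 0 < ∑ E ∈ zs (Db C b), T ^ E.card := by
    refine sum_pos' (fun E hE => ?_) ⟨∅, empty_mem_zs _, ?_⟩
    · exact (even_of_zs hE).pow_nonneg T
    · rw [card_empty, pow_zero]; exact one_pos
  exact h4.ne' h3

/-- exactly one nonempty zero-sum subset -/
theorem one (C : Finset (Gr 0 d)) (t : ℝ) (hmix : Mixes C t) (m : Gr 0 d → ℤ)
    (hm : ∀ a, ev C a = m a) (b : Gr 0 d) (hb : b ≠ 0) (E₀ : Finset (Gr 0 d))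
    (hone : ∀ E ∈ zs (Db C b), E = ∅ ∨ E = E₀) :
    Real.cos (2 * t) = 0 ∨ Real.cos (4 * t) = 0 := by
  classical
  by_cases h4 : 4 ∣ E₀.card
  · left
    refine four C t hmix m hm b hb fun E hE => ?_
    rcases hone E hE with rfl | rfl
    · rw [card_empty]; exact dvd_zero _
    · exact h4
  by_cases hE₀ : E₀ ∈ zs (Db C b)
  swap
  · left
    refine four C t hmix m hm b hb fun E hE => ?_
    rcases hone E hE with rfl | rfl
    · rw [card_empty]; exact dvd_zero _
    · exact absurd hE hE₀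
  by_cases hα : Real.cos (2 * t) = 0
  · left; exact hα
  right
  have h1 := tan_sum C t hmix m hm b hb hα
  set T : ℝ := Real.sin (2 * t) / Real.cos (2 * t) with hT
  obtain ⟨k, hk⟩ := even_of_zs hE₀
  have hne : (∅ : Finset (Gr 0 d)) ≠ E₀ := by
    rintro rfl
    rw [card_empty] at h4
    exact h4 (dvd_zero _)
  have h10 : zs (Db C b) = {∅, E₀} := by
    ext E
    rw [mem_insert, mem_singleton]
    refine ⟨hone E, ?_⟩
    rintro (rfl | rfl)
    · exact empty_mem_zs _
    · exact hE₀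
  have hodd : Odd k := by
    rw [← Nat.not_even_iff_odd]
    rintro ⟨j, hj⟩
    exact h4 ⟨j, by omega⟩
  have hkk : E₀.card = 2 * k := by omega
  rw [h10, sum_pair hne, card_empty, pow_zero, hkk] at h1
  have h18 : (-Complex.I * (T : ℂ)) ^ (2 * k) = -((T : ℂ) ^ 2) ^ k := by
    rw [pow_mul, mul_pow, neg_sq, Complex.I_sq, neg_one_mul, hodd.neg_pow]
  rw [h18] at h1
  have h19 : (T ^ 2) ^ k = 1 := by
    have h20 : (1 : ℂ) = ((T : ℂ) ^ 2) ^ k := by linear_combination h1
    exact_mod_cast h20.symm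
  have h21 : T ^ 2 = 1 := (pow_eq_one_iff_of_nonneg (sq_nonneg T) hodd.pos.ne').1 h19
  have h24 : Real.sin (2 * t) ^ 2 = Real.cos (2 * t) ^ 2 := by
    rw [hT, div_pow, div_eq_one_iff_eq (pow_ne_zero _ hα)] at h21
    exact h21
  have h25 : (4 * t : ℝ) = 2 * (2 * t) := by ring
  rw [h25, Real.cos_two_mul']
  linarith

/-- a nontrivial character which is nontrivial on at most six elements of `C` -/
theorem six (C : Finset (Gr 0 d)) (t : ℝ) (hmix : Mixes C t) (m : Gr 0 d → ℤ)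
    (hm : ∀ a, ev C a = m a) (b : Gr 0 d) (hb : b ≠ 0) (h6 : (Db C b).card ≤ 6) :
    Real.cos (2 * t) = 0 ∨ Real.cos (4 * t) = 0 := by
  classical
  have hle : ∀ E ∈ zs (Db C b), E.card ≤ (Db C b).card := fun E hE =>
    card_le_card (sub_of_zs hE).1
  by_cases hall : ∀ E ∈ zs (Db C b), 4 ∣ E.card
  · left
    exact four C t hmix m hm b hb hall
  · push Not at hall
    obtain ⟨E₀, hE₀, h4⟩ := hall
    obtain ⟨hs0, hz0⟩ := sub_of_zs hE₀
    have h5 := hle E₀ hE₀
    obtain ⟨k, hk⟩ := even_of_zs hE₀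
    have h7 : E₀.card ≠ 2 := two_of_zs hz0
    have h8 : E₀.card = 6 := by omega
    have h9 : E₀ = Db C b := eq_of_subset_of_card_le hs0 (by omega)
    refine one C t hmix m hm b hb E₀ fun E hE => ?_
    obtain ⟨hs1, hz1⟩ := sub_of_zs hE
    have h11 := hle E hE
    obtain ⟨k', hk'⟩ := even_of_zs hE
    have h12 : E.card ≠ 2 := two_of_zs hz1
    have h13 : (Db C b \ E).card = (Db C b).card - E.card := by rw [card_sdiff_of_subset hs1]
    have h14 : (Db C b \ E).card ≠ 2 := by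
      refine two_of_zs ?_
      have h15 := sum_sdiff (f := fun c : Gr 0 d => c) hs1
      rw [hz1, add_zero, ← h9, hz0, h9] at h15
      exact h15
    have h16 : (Db C b).card = 6 := by rw [← h9, h8]
    have h17 : E.card = 0 ∨ E.card = 6 := by omega
    rcases h17 with h18 | h18
    · left; exact card_eq_zero.1 h18
    · right; rw [h9]; exact eq_of_subset_of_card_le hs1 (by omega)

theorem card_Db (C : Finset (Gr 0 d)) (b : Gr 0 d) :
    ev C b = (C.card : ℂ) - 2 * (Db C b).card := by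
  unfold ev Db
  rw [card_filter, Nat.cast_sum, mul_sum, card_eq_sum_ones, Nat.cast_sum, ← sum_sub_distrib]
  refine sum_congr rfl fun c _ => ?_
  rw [ch_b]
  split_ifs with h
  · push_cast; norm_num
  · push_cast; norm_num

/-- some nontrivial character is nontrivial on at most six elements if `|C| ≤ 13` -/
theorem exists_six (C : Finset (Gr 0 d)) (h0 : (0 : Gr 0 d) ∉ C) (h13 : C.card ≤ 13) :
    ∃ b : Gr 0 d, b ≠ 0 ∧ (Db C b).card ≤ 6 := by
  classical
  by_contra hno
  push Not at hno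
  have h1 : ∑ b : Gr 0 d, ev C b = 0 := by
    unfold ev
    rw [sum_comm]
    refine sum_eq_zero fun c hc => ?_
    rw [sum_ch_left, if_neg]
    rintro rfl
    exact h0 hc
  simp only [card_Db] at h1
  have h2 : (2 : ℤ) * ∑ b : Gr 0 d, ((Db C b).card : ℤ) = (2 : ℤ) ^ (d + 1) * C.card := by
    have h3 : ((2 : ℂ) * ∑ b : Gr 0 d, ((Db C b).card : ℂ)) = (2 : ℂ) ^ (d + 1) * C.card := by
      rw [sum_sub_distrib, ← mul_sum, sum_const, card_univ, card_Gr, nsmul_eq_mul] at h1
      push_cast at h1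
      linear_combination -h1
    exact_mod_cast h3
  have h4 : (7 : ℤ) * ((2 : ℤ) ^ (d + 1) - 1) ≤ ∑ b : Gr 0 d, ((Db C b).card : ℤ) := by
    have h5 : ∑ b : Gr 0 d, (if b = 0 then (0 : ℤ) else 7) ≤
        ∑ b : Gr 0 d, ((Db C b).card : ℤ) := by
      refine sum_le_sum fun b _ => ?_
      split_ifs with hb
      · exact Nat.cast_nonneg _
      · exact_mod_cast hno b hb
    have h6 : ∑ b : Gr 0 d, (if b = 0 then (0 : ℤ) else 7) = 7 * ((2 : ℤ) ^ (d + 1) - 1) := by
      have h7 : ∀ b : Gr 0 d, (if b = 0 then (0 : ℤ) else 7) = 7 - (if b = 0 then 7 else 0) := by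
        intro b; split_ifs <;> norm_num
      rw [sum_congr rfl fun b _ => h7 b, sum_sub_distrib, sum_ite_eq' univ (0 : Gr 0 d) fun _ => (7 : ℤ),
        if_pos (mem_univ _), sum_const, card_univ, card_Gr, nsmul_eq_mul]
      push_cast
      norm_num
      ring
    linarith
  have h8 : (C.card : ℤ) ≤ (2 : ℤ) ^ (d + 1) - 1 := by
    have h9 : C ⊆ univ.erase (0 : Gr 0 d) := by
      intro c hc
      rw [mem_erase]
      exact ⟨fun h => h0 (h ▸ hc), mem_univ _⟩
    have h10 := card_le_card h9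
    rw [card_erase_of_mem (mem_univ _), card_univ, card_Gr] at h10
    have h11 : 1 ≤ (0 + 2) ^ (d + 1) := Nat.one_le_pow _ _ (by norm_num)
    have h12 : C.card + 1 ≤ (0 + 2) ^ (d + 1) := by omega
    have h13 : ((C.card + 1 : ℕ) : ℤ) ≤ (((0 + 2) ^ (d + 1) : ℕ) : ℤ) := by exact_mod_cast h12
    push_cast at h13
    norm_num at h13
    linarith
  have h13' : (C.card : ℤ) ≤ 13 := by exact_mod_cast h13
  set n : ℤ := (2 : ℤ) ^ (d + 1) with hn
  have hn2 : n = 2 * 2 ^ d := by rw [hn, pow_succ]; ring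
  have hpos : (1 : ℤ) ≤ 2 ^ d := one_le_pow₀ (by norm_num)
  have h14 : n ≤ 14 := by nlinarith
  have h15 : 14 ≤ n := by nlinarith
  have h16 : (2 : ℤ) ^ d = 7 := by linarith
  have h17 : (2 : ℕ) ^ d = 7 := by exact_mod_cast h16
  have h18 : d < 3 := by
    by_contra hd
    push Not at hd
    have := Nat.pow_le_pow_right (n := 2) (by norm_num) hd
    omega
  interval_cases d <;> omega

theorem Db_add (C : Finset (Gr 0 d)) (b b' : Gr 0 d) :
    Db C (b + b') = symmDiff (Db C b) (Db C b') := by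
  classical
  ext c
  unfold Db
  rw [mem_symmDiff, mem_filter, mem_filter, mem_filter, add_dotProduct]
  have key : ∀ x y : ZMod 2, x + y ≠ 0 ↔ (x ≠ 0 ∧ ¬ y ≠ 0) ∨ (y ≠ 0 ∧ ¬ x ≠ 0) := by decide
  have h := key (b ⬝ᵥ c) (b' ⬝ᵥ c)
  constructor
  · rintro ⟨h1, h2⟩
    rcases h.1 h2 with ⟨h3, h4⟩ | ⟨h3, h4⟩
    · left; exact ⟨⟨h1, h3⟩, fun h5 => h4 h5.2⟩
    · right; exact ⟨⟨h1, h3⟩, fun h5 => h4 h5.2⟩
  · rintro (⟨⟨h1, h3⟩, h4⟩ | ⟨⟨h1, h3⟩, h4⟩)
    · exact ⟨h1, h.2 (Or.inl ⟨h3, fun h5 => h4 ⟨h1, h5⟩⟩)⟩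
    · exact ⟨h1, h.2 (Or.inr ⟨h3, fun h5 => h4 ⟨h1, h5⟩⟩)⟩

/-- the Hamming bound -/
theorem hamming (C : Finset (Gr 0 d))
    (h : 2 ^ C.card < 2 ^ (d + 1) * ∑ i ∈ range 4, C.card.choose i) :
    ∃ b : Gr 0 d, b ≠ 0 ∧ (Db C b).card ≤ 6 := by
  classical
  by_contra hno
  push Not at hno
  set P : Finset (Finset (Gr 0 d)) := (range 4).biUnion fun i => powersetCard i C with hP
  have hPc : P.card = ∑ i ∈ range 4, C.card.choose i := by
    rw [hP, card_biUnion]
    · exact sum_congr rfl fun i _ => card_powersetCard _ _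
    · intro i _ j _ hij
      exact pairwise_disjoint_powersetCard C hij
  have hP3 : ∀ S ∈ P, S ⊆ C ∧ S.card ≤ 3 := by
    intro S hS
    rw [hP, mem_biUnion] at hS
    obtain ⟨i, hi, hS⟩ := hS
    rw [mem_powersetCard] at hS
    rw [mem_range] at hi
    exact ⟨hS.1, by omega⟩
  have hmap : ∀ x ∈ (univ : Finset (Gr 0 d)) ×ˢ P, symmDiff (Db C x.1) x.2 ∈ C.powerset := by
    intro x hx
    rw [mem_product] at hx
    rw [mem_powerset]
    intro c hc
    rw [mem_symmDiff] at hc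
    rcases hc with hc | hc
    · exact (mem_filter.1 hc.1).1
    · exact (hP3 _ hx.2).1 hc.1
  have hcard : C.powerset.card < ((univ : Finset (Gr 0 d)) ×ˢ P).card := by
    rw [card_powerset, card_product, card_univ, card_Gr, hPc]
    simpa using h
  obtain ⟨⟨b, S⟩, hx, ⟨b', S'⟩, hy, hne, heq⟩ := exists_ne_map_eq_of_card_lt_of_maps_to hcard hmap
  rw [mem_product] at hx hy
  have heq' : symmDiff (Db C b) S = symmDiff (Db C b') S' := heq
  have h1 : symmDiff (Db C b) (Db C b') = symmDiff S S' := by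
    ext c
    have h2 := Finset.ext_iff.1 heq' c
    rw [mem_symmDiff, mem_symmDiff] at h2
    rw [mem_symmDiff, mem_symmDiff]
    tauto
  by_cases hbb : b = b'
  · subst hbb
    rw [symmDiff_self] at h1
    have h3 : S = S' := symmDiff_eq_bot.1 h1.symm
    exact hne (by rw [h3])
  · have h2 : b + b' ≠ 0 := by
      intro h3
      refine hbb ?_
      exact add_right_cancel (h3.trans (add_self_Gr b').symm)
    have h3 := hno _ h2
    rw [Db_add, h1] at h3
    have h4 : (symmDiff S S').card ≤ S.card + S'.card := by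
      refine (card_le_card ?_).trans (card_union_le S S')
      exact symmDiff_le_sup
    have h5 : S.card ≤ 3 := (hP3 _ hx.2).2
    have h6 : S'.card ≤ 3 := (hP3 _ hy.2).2
    omega

end Pool.Agent.T9h68.UM
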