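import Pool.Agent.T9h68.UM.Val

/-!
# The walk on a Cayley graph of `(ℤ/q)^d` in terms of characters
-/

set_option autoImplicit false

open Finset Matrix

namespace Pool.Agent.T9h68.UM

section exp
variable {ι : Type} [Fintype ι] [DecidableEq ι]

theorem exp_mulVec (M : Matrix ι ι ℂ) (v : ι → ℂ) (μ : ℂ) (h : M *ᵥ v = μ • v) :
    NormedSpace.exp M *ᵥ v = Complex.exp μ • v := by
  let _ : SeminormedRing (Matrix ι ι ℂ) := Matrix.linftyOpSemiNormedRing
  let _ : NormedRing (Matrix ι ι ℂ) := Matrix.linftyOpNormedRing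
  let _ : NormedAlgebra ℂ (Matrix ι ι ℂ) := Matrix.linftyOpNormedAlgebra
  have h1 : HasSum (fun k : ℕ => ((k.factorial : ℂ)⁻¹) • M ^ k) (NormedSpace.exp M) :=
    NormedSpace.exp_series_hasSum_exp' (𝕂 := ℂ) M
  let φ : Matrix ι ι ℂ →+ (ι → ℂ) :=
    { toFun := fun A => A *ᵥ v
      map_zero' := Matrix.zero_mulVec v
      map_add' := fun A B => Matrix.add_mulVec A B v }
  have hφ : Continuous φ := by
    change Continuous fun A : Matrix ι ι ℂ => A *ᵥ v
    exact continuous_id.matrix_mulVec continuous_const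
  have h2 := h1.map φ hφ
  have hk : ∀ k : ℕ, M ^ k *ᵥ v = μ ^ k • v := by
    intro k
    induction k with
    | zero => simp
    | succ k ih =>
      rw [pow_succ', ← Matrix.mulVec_mulVec, ih, Matrix.mulVec_smul, h, smul_smul, pow_succ]
  have h3 : HasSum (fun k : ℕ => ((k.factorial : ℂ)⁻¹ * μ ^ k) • v) (Complex.exp μ • v) := by
    refine HasSum.smul_const ?_ v
    have h4 : HasSum (fun k : ℕ => ((k.factorial : ℂ)⁻¹) • μ ^ k) (NormedSpace.exp μ) :=
      NormedSpace.exp_series_hasSum_exp' (𝕂 := ℂ) μ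
    rw [Complex.exp_eq_exp_ℂ]
    simpa [smul_eq_mul] using h4
  have h5 : (φ ∘ fun k : ℕ => ((k.factorial : ℂ)⁻¹) • M ^ k) =
      fun k : ℕ => ((k.factorial : ℂ)⁻¹ * μ ^ k) • v := by
    funext k
    change (((k.factorial : ℂ)⁻¹) • M ^ k) *ᵥ v = _
    rw [Matrix.smul_mulVec, hk, smul_smul]
  rw [h5] at h2
  exact h2.unique h3

end exp

variable (q d : ℕ)

/-- the group -/
abbrev Gr : Type := Fin (d + 1) → ZMod (q + 2)

/-- the characters -/
noncomputable def ch (a x : Gr q d) : ℂ := ZMod.stdAddChar (a ⬝ᵥ x)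

variable {q d}

theorem ch_eq_one {a : Gr q d} (h : ∀ x, ch q d a x = 1) : a = 0 := by
  funext i
  have h1 := h (Pi.single i 1)
  unfold ch at h1
  rw [dotProduct_single_one] at h1
  have h2 : (ZMod.stdAddChar (a i) : ℂ) = ZMod.stdAddChar (0 : ZMod (q + 2)) := by
    rw [h1, AddChar.map_zero_eq_one]
  exact ZMod.injective_stdAddChar h2

theorem chars : Chars ℂ (ch q d) (q + 2) where
  zero_left x := by unfold ch; rw [zero_dotProduct, AddChar.map_zero_eq_one]
  root a x := by
    unfold ch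
    rw [← AddChar.map_nsmul_eq_pow, nsmul_eq_mul, ZMod.natCast_self, zero_mul,
      AddChar.map_zero_eq_one]
  Npos := by omega
  symm a x := by unfold ch; rw [dotProduct_comm]
  add_right a x y := by unfold ch; rw [dotProduct_add, AddChar.map_add_eq_mul]
  ortho a ha := by
    have h : ∃ y, ch q d a y ≠ 1 := by
      by_contra hno
      push Not at hno
      exact ha (ch_eq_one hno)
    obtain ⟨y, hy⟩ := h
    have h1 : ∑ x, ch q d a x = ch q d a y * ∑ x, ch q d a x := by
      rw [mul_sum, ← Equiv.sum_comp (Equiv.addRight y) (fun x => ch q d a x)]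
      refine sum_congr rfl fun x _ => ?_
      change ch q d a (x + y) = _
      unfold ch
      rw [dotProduct_add, AddChar.map_add_eq_mul, mul_comm]
    have h2 : (1 - ch q d a y) * ∑ x, ch q d a x = 0 := by
      rw [sub_mul, one_mul, ← h1, sub_self]
    rcases mul_eq_zero.1 h2 with h3 | h3
    · exact absurd (sub_eq_zero.1 h3).symm hy
    · exact h3

/-- the adjacency matrix -/
noncomputable def adj (C : Finset (Gr q d)) : Matrix (Gr q d) (Gr q d) ℂ :=
  Matrix.of fun x y => if y - x ∈ C then (1 : ℂ) else 0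

/-- the eigenvalues -/
noncomputable def ev (C : Finset (Gr q d)) (a : Gr q d) : ℂ := ∑ c ∈ C, ch q d a c

theorem adj_ch (C : Finset (Gr q d)) (a : Gr q d) : adj C *ᵥ ch q d a = ev C a • ch q d a := by
  funext x
  rw [Pi.smul_apply, smul_eq_mul]
  change ∑ y, (if y - x ∈ C then (1 : ℂ) else 0) * ch q d a y = _
  rw [← Equiv.sum_comp (Equiv.addRight x)
    (fun y => (if y - x ∈ C then (1 : ℂ) else 0) * ch q d a y)]
  simp only [Equiv.coe_addRight, add_sub_cancel_right, ite_mul, one_mul, zero_mul, sum_ite_mem,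
    univ_inter]
  unfold ev
  rw [sum_mul]
  refine sum_congr rfl fun c _ => ?_
  rw [chars.add_right]

/-- uniform mixing at time `t` -/
def Mixes (C : Finset (Gr q d)) (t : ℝ) : Prop :=
  ∀ a b : Gr q d, ‖NormedSpace.exp ((Complex.I * (t : ℂ)) • adj C) a b‖ ^ 2 =
    1 / ((q + 2 : ℝ) ^ (d + 1))

/-- the first row of the transition matrix -/
theorem row (C : Finset (Gr q d)) (t : ℝ) (a : Gr q d) :
    ∑ y, NormedSpace.exp ((Complex.I * (t : ℂ)) • adj C) 0 y * ch q d a y =
      Complex.exp (Complex.I * t * ev C a) := by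
  have h := exp_mulVec ((Complex.I * (t : ℂ)) • adj C) (ch q d a) (Complex.I * t * ev C a) (by
    rw [Matrix.smul_mulVec, adj_ch, smul_smul])
  have h1 := congrFun h 0
  rw [Pi.smul_apply, smul_eq_mul, chars.zero_right, mul_one] at h1
  exact h1

end Pool.Agent.T9h68.UM
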