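import Pool.Agent.T9h68.UM.Exp

/-!
# Uniform mixing on integral Cayley graphs of `(ℤ/q)^d`: `e^{it}` is a unit
-/

set_option autoImplicit false

open Finset
open scoped Matrix
open scoped ComplexConjugate

namespace Pool.Agent.T9h68.UM

variable {q d : ℕ}

theorem card_Gr : Fintype.card (Gr q d) = (q + 2) ^ (d + 1) := by
  unfold Gr
  rw [Fintype.card_fun, ZMod.card, Fintype.card_fin]

theorem norm_ch (a x : Gr q d) : ‖ch q d a x‖ = 1 := by
  have h := congrArg norm (chars.root a x)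
  rw [norm_pow, norm_one] at h
  exact (pow_eq_one_iff_of_nonneg (norm_nonneg _) (by omega)).1 h

theorem conj_ch (a x : Gr q d) : conj (ch q d a x) = ch q d a (-x) := by
  have h1 := chars.inv a x
  have h2 : ch q d a x * conj (ch q d a x) = 1 := by
    rw [Complex.mul_conj, Complex.normSq_eq_norm_sq, norm_ch]
    norm_num
  have h3 : ch q d a x ≠ 0 := by
    intro h
    rw [h, zero_mul] at h1
    exact zero_ne_one h1
  exact mul_left_cancel₀ h3 (h2.trans h1.symm)

/-- the base -/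
noncomputable def zt (t : ℝ) : ℂ := Complex.exp (Complex.I * t)

theorem zt_ne (t : ℝ) : zt t ≠ 0 := Complex.exp_ne_zero _

theorem conj_zt (t : ℝ) : conj (zt t) = (zt t)⁻¹ := by
  unfold zt
  rw [← Complex.exp_conj, ← Complex.exp_neg]
  congr 1
  rw [map_mul, Complex.conj_I, Complex.conj_ofReal]
  ring

theorem exp_zt (t : ℝ) (k : ℤ) : Complex.exp (Complex.I * t * k) = zt t ^ k := by
  unfold zt
  rw [← Complex.exp_int_mul]
  congr 1
  ring

theorem F_eq (C : Finset (Gr q d)) (t : ℝ) (m : Gr q d → ℤ) (hm : ∀ a, ev C a = m a)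
    (x : Gr q d) : ∑ a, zt t ^ m a * ch q d a (-x) =
      (Fintype.card (Gr q d) : ℂ) * NormedSpace.exp ((Complex.I * (t : ℂ)) • adj C) 0 x := by
  rw [← chars.inversion (fun y => NormedSpace.exp ((Complex.I * (t : ℂ)) • adj C) 0 y) x]
  refine sum_congr rfl fun a _ => ?_
  have h1 := row C t a
  rw [hm a, exp_zt] at h1
  rw [← h1]
  congr 1
  · exact sum_congr rfl fun y _ => by rw [chars.symm y a]
  · unfold ch
    rw [dotProduct_neg, dotProduct_neg, dotProduct_comm]

theorem FF (C : Finset (Gr q d)) (t : ℝ) (hmix : Mixes C t) (m : Gr q d → ℤ)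
    (hm : ∀ a, ev C a = m a) (x : Gr q d) :
    (∑ a, zt t ^ m a * ch q d a (-x)) * (∑ a, zt t ^ (-m a) * ch q d a x) =
      (Fintype.card (Gr q d) : ℂ) := by
  have h1 : ∑ a, zt t ^ (-m a) * ch q d a x = conj (∑ a, zt t ^ m a * ch q d a (-x)) := by
    rw [map_sum]
    refine sum_congr rfl fun a _ => ?_
    rw [map_mul, conj_ch, neg_neg, map_zpow₀, conj_zt, inv_zpow, zpow_neg]
  rw [h1, Complex.mul_conj, Complex.normSq_eq_norm_sq, F_eq C t m hm, norm_mul, mul_pow,
    hmix 0 x, card_Gr]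
  have h2 : ((q : ℝ) + 2) ^ (d + 1) ≠ 0 := by positivity
  have h3 : ‖(((q + 2) ^ (d + 1) : ℕ) : ℂ)‖ = ((q : ℝ) + 2) ^ (d + 1) := by
    rw [Complex.norm_natCast]
    push_cast
    rfl
  rw [h3]
  have h4 : (((q : ℝ) + 2) ^ (d + 1)) ^ 2 * (1 / ((q : ℝ) + 2) ^ (d + 1)) =
      ((q : ℝ) + 2) ^ (d + 1) := by
    field_simp
  rw [h4]
  push_cast
  rfl

theorem exists_ne : ∃ a : Gr q d, a ≠ 0 := by
  have : Fact (1 < q + 2) := ⟨by omega⟩
  exact ⟨fun _ => 1, fun h => one_ne_zero (congrFun h 0)⟩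

theorem strict (C : Finset (Gr q d)) (t : ℝ) (hmix : Mixes C t) (m : Gr q d → ℤ)
    (hm : ∀ a, ev C a = m a) (a : Gr q d) (ha : a ≠ 0) : m a < m 0 := by
  by_contra hlt
  rw [not_lt] at hlt
  have h0 : (m 0 : ℝ) = C.card := by
    have h := hm 0
    unfold ev at h
    simp only [chars.zero_left, sum_const, nsmul_eq_mul, mul_one] at h
    have h' : ((C.card : ℤ) : ℂ) = ((m 0 : ℤ) : ℂ) := by rw [← h]; push_cast; rfl
    have h'' : (C.card : ℤ) = m 0 := by exact_mod_cast h'
    rw [← h'']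
    push_cast
    rfl
  have h1 : (m a : ℝ) = ∑ c ∈ C, (ch q d a c).re := by
    have h := congrArg Complex.re (hm a)
    unfold ev at h
    rw [Complex.re_sum] at h
    rw [h]
    simp
  have h2 : ∑ c ∈ C, (1 - (ch q d a c).re) ≤ 0 := by
    rw [sum_sub_distrib, ← h1, sum_const, nsmul_eq_mul, mul_one, ← h0]
    have : (m 0 : ℝ) ≤ m a := by exact_mod_cast hlt
    linarith
  have h3 : ∀ c ∈ C, 0 ≤ 1 - (ch q d a c).re := by
    intro c _
    have := Complex.re_le_norm (ch q d a c)
    rw [norm_ch] at this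
    linarith
  have h4 : ∀ c ∈ C, ch q d a c = 1 := by
    intro c hc
    have h5 := (sum_eq_zero_iff_of_nonneg h3).1 (le_antisymm h2 (sum_nonneg h3)) c hc
    have h6 : (ch q d a c).re = 1 := by linarith
    have h7 : (ch q d a c).re ^ 2 + (ch q d a c).im ^ 2 = 1 := by
      have h8 := Complex.sq_norm (ch q d a c)
      rw [norm_ch, Complex.normSq_apply] at h8
      nlinarith
    refine Complex.ext (by rw [h6, Complex.one_re]) ?_
    rw [h6] at h7
    rw [Complex.one_im]
    nlinarith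
  have h5 : ∀ b, m (b + a) = m b := by
    intro b
    have h6 : ev C (b + a) = ev C b := by
      unfold ev
      refine sum_congr rfl fun c hc => ?_
      rw [chars.add_left, h4 c hc, mul_one]
    rw [hm, hm] at h6
    exact_mod_cast h6
  refine ha (ch_eq_one fun y => ?_)
  have h6 := FF C t hmix m hm (-y)
  rw [neg_neg] at h6
  have h7 : ∑ b, zt t ^ m b * ch q d b y = ch q d a y * ∑ b, zt t ^ m b * ch q d b y := by
    rw [mul_sum, ← Equiv.sum_comp (Equiv.addRight a) (fun b => zt t ^ m b * ch q d b y)]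
    refine sum_congr rfl fun b _ => ?_
    rw [Equiv.coe_addRight, h5, chars.add_left]
    ring
  have h8 : ∑ b, zt t ^ m b * ch q d b y ≠ 0 := by
    intro h
    rw [h, zero_mul] at h6
    have : (Fintype.card (Gr q d) : ℂ) ≠ 0 := by
      rw [card_Gr]
      have : 0 < (q + 2) ^ (d + 1) := by positivity
      exact_mod_cast this.ne'
    exact this h6.symm
  exact mul_right_cancel₀ h8 (by rw [one_mul, ← h7])

theorem units (C : Finset (Gr q d)) (t : ℝ) (hmix : Mixes C t) (m : Gr q d → ℤ)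
    (hm : ∀ a, ev C a = m a) : IsIntegral ℤ (zt t) ∧ IsIntegral ℤ (zt t)⁻¹ :=
  unit chars (zt t) (zt_ne t) m (fun a ha => strict C t hmix m hm a ha) exists_ne
    (fun x => FF C t hmix m hm x)

/-- the autocorrelations vanish -/
theorem auto (C : Finset (Gr q d)) (t : ℝ) (hmix : Mixes C t) (m : Gr q d → ℤ)
    (hm : ∀ a, ev C a = m a) (c : Gr q d) (hc : c ≠ 0) :
    ∑ b, zt t ^ (m (b + c) - m b) = 0 := by
  have hn : (Fintype.card (Gr q d) : ℂ) ≠ 0 := by
    rw [card_Gr]
    have : 0 < (q + 2) ^ (d + 1) := by positivity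
    exact_mod_cast this.ne'
  have h1 : ∑ x, ((∑ a, zt t ^ m a * ch q d a (-x)) * (∑ b, zt t ^ (-m b) * ch q d b x)) *
      ch q d c x = 0 := by
    simp only [FF C t hmix m hm]
    rw [← mul_sum, chars.ortho c hc, mul_zero]
  have h2 : ∀ x : Gr q d, ((∑ a, zt t ^ m a * ch q d a (-x)) *
      (∑ b, zt t ^ (-m b) * ch q d b x)) * ch q d c x =
      ∑ b, ∑ a, (zt t ^ m a * zt t ^ (-m b)) * ch q d (b + c - a) x := by
    intro x
    rw [sum_mul_sum, sum_comm, sum_mul]
    refine sum_congr rfl fun b _ => ?_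
    rw [sum_mul]
    refine sum_congr rfl fun a _ => ?_
    have h3 : ch q d (b + c - a) x * ch q d a x = ch q d b x * ch q d c x := by
      rw [← chars.add_left, sub_add_cancel, chars.add_left]
    have h4 := chars.inv a x
    have h5 : ch q d (b + c - a) x = ch q d b x * ch q d c x * ch q d a (-x) := by
      rw [← h3, mul_assoc, h4, mul_one]
    rw [h5]
    ring
  rw [sum_congr rfl fun x _ => h2 x, sum_comm] at h1
  have h3 : ∀ b : Gr q d, ∑ x, ∑ a, (zt t ^ m a * zt t ^ (-m b)) * ch q d (b + c - a) x =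
      (Fintype.card (Gr q d) : ℂ) * zt t ^ (m (b + c) - m b) := by
    intro b
    rw [sum_comm, sum_eq_single (b + c)]
    · rw [sub_self]
      simp only [chars.zero_left, mul_one, sum_const, card_univ, nsmul_eq_mul]
      rw [← zpow_add₀ (zt_ne t), sub_eq_add_neg]
    · intro a _ hab
      rw [← mul_sum, chars.ortho _ (sub_ne_zero.2 (Ne.symm hab)), mul_zero]
    · intro h; exact absurd (mem_univ _) h
  rw [sum_congr rfl fun b _ => h3 b, ← mul_sum] at h1
  exact (mul_eq_zero.1 h1).resolve_left hn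

end Pool.Agent.T9h68.UM
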