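import Pool.Agent.T9h68.UM.Cons

/-!
# The spectrum of a Cayley graph
-/

set_option autoImplicit false

open Finset
open scoped Matrix

namespace Pool.Agent.T9h68.UM

variable {q d : ℕ}

theorem ch_neg (a x : Gr q d) : ch q d (-a) x = ch q d a (-x) := by
  unfold ch
  rw [neg_dotProduct, dotProduct_neg]

theorem spec_ev (C : Finset (Gr q d)) (θ : ℂ) (h : θ ∈ spectrum ℂ (adj C)) :
    ∃ a, θ = ev C a := by
  by_contra hno
  push Not at hno
  have h1 : ¬ IsUnit (algebraMap ℂ (Matrix (Gr q d) (Gr q d) ℂ) θ - adj C) := h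
  rw [Matrix.isUnit_iff_isUnit_det, isUnit_iff_ne_zero, not_not] at h1
  obtain ⟨v, hv, hv0⟩ := Matrix.exists_mulVec_eq_zero_iff.2 h1
  rw [Matrix.sub_mulVec, Algebra.algebraMap_eq_smul_one, Matrix.smul_mulVec, Matrix.one_mulVec,
    sub_eq_zero] at hv0
  have h2 : ∀ a : Gr q d, ∑ y, v y * ch q d a (-y) = 0 := by
    intro a
    have h3 : θ * ∑ y, v y * ch q d a (-y) = ev C a * ∑ y, v y * ch q d a (-y) := by
      have h4 : θ * ∑ y, v y * ch q d a (-y) = ∑ x, (adj C *ᵥ v) x * ch q d a (-x) := by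
        rw [← hv0, mul_sum]
        refine sum_congr rfl fun x _ => ?_
        rw [Pi.smul_apply, smul_eq_mul, mul_assoc]
      rw [h4, mul_sum]
      have h5 : ∀ x, (adj C *ᵥ v) x * ch q d a (-x) =
          ∑ y, v y * ((if y - x ∈ C then (1 : ℂ) else 0) * ch q d a (-x)) := by
        intro x
        change (∑ y, (if y - x ∈ C then (1 : ℂ) else 0) * v y) * _ = _
        rw [sum_mul]
        exact sum_congr rfl fun y _ => by ring
      rw [sum_congr rfl fun x _ => h5 x, sum_comm]
      refine sum_congr rfl fun y _ => ?_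
      rw [← mul_sum, ← Equiv.sum_comp (Equiv.subLeft y)
        (fun x => (if y - x ∈ C then (1 : ℂ) else 0) * ch q d a (-x))]
      have h6 : ∀ c : Gr q d, (if y - (Equiv.subLeft y) c ∈ C then (1 : ℂ) else 0) *
          ch q d a (-(Equiv.subLeft y) c) = if c ∈ C then ch q d a c * ch q d a (-y) else 0 := by
        intro c
        rw [Equiv.subLeft_apply, sub_sub_cancel]
        by_cases hc : c ∈ C
        · rw [if_pos hc, if_pos hc, one_mul, neg_sub, sub_eq_add_neg, chars.add_right]
        · rw [if_neg hc, if_neg hc, zero_mul]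
      rw [sum_congr rfl fun c _ => h6 c, sum_ite_mem, univ_inter, ← sum_mul]
      unfold ev
      ring
    have h4 : (θ - ev C a) * ∑ y, v y * ch q d a (-y) = 0 := by rw [sub_mul, h3, sub_self]
    exact (mul_eq_zero.1 h4).resolve_left (sub_ne_zero.2 (hno a))
  refine hv (funext fun b => ?_)
  have h3 := chars.inversion v b
  have h4 : ∀ x, ∑ y, v y * ch q d y x = 0 := by
    intro x
    rw [← h2 (-x)]
    refine sum_congr rfl fun y _ => ?_
    rw [chars.symm y x, ch_neg, neg_neg]
  simp only [h4, zero_mul, sum_const_zero] at h3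
  have hn : (Fintype.card (Gr q d) : ℂ) ≠ 0 := by
    have : 0 < Fintype.card (Gr q d) := Fintype.card_pos
    exact_mod_cast this.ne'
  exact (mul_eq_zero.1 h3.symm).resolve_left hn

end Pool.Agent.T9h68.UM
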