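import Pool.Agent.T9h68.UM.Cons

/-!
# Uniform mixing on Cayley graphs of `(ℤ/3)^d`
-/

set_option autoImplicit false

open Finset Matrix

namespace Pool.Agent.T9h68.UM

variable {d : ℕ}

/-- the elements of `C` with `b ⬝ c = 1` -/
def Dp (C : Finset (Gr 1 d)) (b : Gr 1 d) : Finset (Gr 1 d) := C.filter fun c => b ⬝ᵥ c = 1

/-- the primitive cube root of unity -/
noncomputable def om : ℂ := ZMod.stdAddChar (1 : ZMod (1 + 2))

theorem om_cube : om ^ 3 = 1 := by
  unfold om
  rw [← AddChar.map_nsmul_eq_pow]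
  have : (3 : ℕ) • (1 : ZMod (1 + 2)) = 0 := by decide
  rw [this, AddChar.map_zero_eq_one]

theorem om_ne : om ≠ 1 := by
  intro h
  have h2 : (ZMod.stdAddChar (1 : ZMod (1 + 2)) : ℂ) = ZMod.stdAddChar (0 : ZMod (1 + 2)) := by
    rw [AddChar.map_zero_eq_one]; exact h
  exact absurd (ZMod.injective_stdAddChar h2) (by decide)

theorem om_sum : om ^ 2 + om + 1 = 0 := by
  have h : (om - 1) * (om ^ 2 + om + 1) = 0 := by linear_combination om_cube
  exact (mul_eq_zero.1 h).resolve_left (sub_ne_zero.2 om_ne)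

theorem ch_three (a c : Gr 1 d) : ch 1 d a c = 1 ∨ ch 1 d a c = om ∨ ch 1 d a c = om ^ 2 := by
  have h : ch 1 d a c ^ 3 = 1 := (chars (q := 1) (d := d)).root a c
  have h1 : (ch 1 d a c - 1) * ((ch 1 d a c - om) * (ch 1 d a c - om ^ 2)) = 0 := by
    have h2 := om_sum
    have h3 := om_cube
    linear_combination h + (ch 1 d a c - ch 1 d a c ^ 2) * h2 + (ch 1 d a c - 1) * h3
  rcases mul_eq_zero.1 h1 with h2 | h2
  · left; exact sub_eq_zero.1 h2
  rcases mul_eq_zero.1 h2 with h3 | h3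
  · right; left; exact sub_eq_zero.1 h3
  · right; right; exact sub_eq_zero.1 h3

theorem ch_neg_sq (a c : Gr 1 d) : ch 1 d a (-c) = ch 1 d a c ^ 2 := by
  have h := (chars (q := 1) (d := d)).inv a c
  have h3 : ch 1 d a c ^ 3 = 1 := (chars (q := 1) (d := d)).root a c
  have hne : ch 1 d a c ≠ 0 := left_ne_zero_of_mul_eq_one h
  refine mul_left_cancel₀ hne ?_
  rw [h]
  linear_combination -h3

theorem ch_add_self (a c : Gr 1 d) : ch 1 d a (c + c) = ch 1 d a c ^ 2 := by
  rw [chars.add_right, sq]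

/-- the exponent -/
noncomputable def gx (x : ℂ) : ℂ := x * (om - 1) + x ^ 2 * (om ^ 2 - 1)

theorem ev_diff3 (C : Finset (Gr 1 d)) (hC : ∀ c ∈ C, -c ∈ C) (a b : Gr 1 d) :
    ev C (a + b) - ev C a = ∑ c ∈ Dp C b, gx (ch 1 d a c) := by
  classical
  have h1 : ev C (a + b) - ev C a = ∑ c ∈ C, ch 1 d a c * (ch 1 d b c - 1) := by
    unfold ev
    rw [← sum_sub_distrib]
    refine sum_congr rfl fun c _ => ?_
    rw [chars.add_left]; ring
  have h2 : ∑ c ∈ C, ch 1 d a c * (ch 1 d b c - 1) =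
      ∑ c ∈ C, ((if b ⬝ᵥ c = 1 then ch 1 d a c * (om - 1) else 0) +
        (if b ⬝ᵥ c = -1 then ch 1 d a c * (om ^ 2 - 1) else 0)) := by
    refine sum_congr rfl fun c _ => ?_
    have key : ∀ x : ZMod (1 + 2), x = 0 ∨ x = 1 ∨ x = -1 := by decide
    have h01 : (0 : ZMod (1 + 2)) ≠ 1 := by decide
    have h02 : (0 : ZMod (1 + 2)) ≠ -1 := by decide
    have h12 : (1 : ZMod (1 + 2)) ≠ -1 := by decide
    rcases key (b ⬝ᵥ c) with h | h | h
    · have h3 : ch 1 d b c = 1 := by unfold ch; rw [h, AddChar.map_zero_eq_one]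
      rw [if_neg (by rw [h]; exact h01), if_neg (by rw [h]; exact h02), h3]
      ring
    · have h3 : ch 1 d b c = om := by unfold ch; rw [h]; rfl
      rw [if_pos h, if_neg (by rw [h]; exact h12), h3]
      ring
    · have h3 : ch 1 d b c = om ^ 2 := by
        unfold ch om
        rw [h, ← AddChar.map_nsmul_eq_pow]
        have : (2 : ℕ) • (1 : ZMod (1 + 2)) = -1 := by decide
        rw [this]
      rw [if_neg (by rw [h]; exact h12.symm), if_pos h, h3]
      ring
  have h3 : ∑ c ∈ C, (if b ⬝ᵥ c = -1 then ch 1 d a c * (om ^ 2 - 1) else 0) =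
      ∑ c ∈ C, (if b ⬝ᵥ c = 1 then ch 1 d a c ^ 2 * (om ^ 2 - 1) else 0) := by
    refine sum_nbij' (fun c => -c) (fun c => -c) hC hC (fun c _ => neg_neg c)
      (fun c _ => neg_neg c) (fun c _ => ?_)
    rw [dotProduct_neg]
    have h4 : (b ⬝ᵥ c = -1) ↔ (-(b ⬝ᵥ c) = 1) := by
      constructor
      · intro h; rw [h, neg_neg]
      · intro h; rw [← h, neg_neg]
    by_cases h5 : b ⬝ᵥ c = -1
    · rw [if_pos h5, if_pos (h4.1 h5), ch_neg_sq]
      have h6 : ch 1 d a c ^ 3 = 1 := (chars (q := 1) (d := d)).root a c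
      have h7 : (ch 1 d a c ^ 2) ^ 2 = ch 1 d a c := by linear_combination ch 1 d a c * h6
      rw [h7]
    · rw [if_neg h5, if_neg (fun h => h5 (h4.2 h))]
  rw [h1, h2, sum_add_distrib, h3, ← sum_add_distrib]
  unfold Dp
  rw [sum_filter]
  refine sum_congr rfl fun c _ => ?_
  unfold gx
  split_ifs
  · rfl
  · ring

theorem sum_ch_left3 (x : Gr 1 d) (hx : x ≠ 0) : ∑ a, ch 1 d a x = 0 := by
  rw [← (chars (q := 1) (d := d)).ortho x hx]
  exact sum_congr rfl fun a _ => chars.symm a x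

/-- Fourier expansion of a function of a cube root of unity -/
theorem expand (t : ℝ) : ∃ B B' : ℂ, ∀ x : ℂ, (x = 1 ∨ x = om ∨ x = om ^ 2) →
    Complex.exp (Complex.I * t * gx x) =
      ((2 * Real.cos (3 * t) + 1 : ℝ) : ℂ) / 3 + B * x + B' * x ^ 2 := by
  have h0 : gx 1 = -3 := by
    unfold gx; linear_combination om_sum
  have h1 : gx om = 0 := by
    unfold gx; linear_combination (om) * om_cube
  have h2 : gx (om ^ 2) = 3 := by
    unfold gx; linear_combination (2 + om ^ 3) * om_cube - om_sum - om * om_cube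
  set u := Complex.exp (Complex.I * t * 3) with hu
  set v := Complex.exp (Complex.I * t * (-3)) with hv
  have hcos : ((2 * Real.cos (3 * t) + 1 : ℝ) : ℂ) = v + 1 + u := by
    have h3 : Complex.I * (t : ℂ) * 3 = ((3 * t : ℝ) : ℂ) * Complex.I := by push_cast; ring
    have h4 : Complex.I * (t : ℂ) * (-3) = ((-(3 * t) : ℝ) : ℂ) * Complex.I := by push_cast; ring
    rw [hu, hv, h3, h4, Complex.exp_mul_I, Complex.exp_mul_I, ← Complex.ofReal_cos,
      ← Complex.ofReal_sin, ← Complex.ofReal_cos, ← Complex.ofReal_sin, Real.cos_neg, Real.sin_neg]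
    push_cast
    ring
  refine ⟨(v + om ^ 2 + om * u) / 3, (v + om + om ^ 2 * u) / 3, ?_⟩
  rintro x (rfl | rfl | rfl)
  · rw [h0, ← hv, hcos]
    linear_combination (-(1 + u) / 3) * om_sum
  · rw [h1, mul_zero, Complex.exp_zero, hcos]
    linear_combination (-(v + u) / 3) * om_sum - (2 / 3 + u * om / 3) * om_cube
  · rw [h2, ← hu, hcos]
    linear_combination (-(v + 1) / 3) * om_sum - ((om + v * om) / 3 + u / 3 * (om ^ 3 + 2) + om ^ 2 / 3) * om_cube

/-- a nontrivial character which is nontrivial on at most two pairs of `C` -/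
theorem pairs_two (C : Finset (Gr 1 d)) (hC : ∀ c ∈ C, -c ∈ C) (t : ℝ) (hmix : Mixes C t)
    (m : Gr 1 d → ℤ) (hm : ∀ a, ev C a = m a) (b : Gr 1 d) (hb : b ≠ 0)
    (h2 : (Dp C b).card ≤ 2) : 2 * Real.cos (3 * t) + 1 = 0 := by
  classical
  have h1 := auto C t hmix m hm b hb
  obtain ⟨B, B', hB⟩ := expand t
  set α : ℂ := ((2 * Real.cos (3 * t) + 1 : ℝ) : ℂ) / 3 with hα
  have h3 : ∀ a, zt t ^ (m (a + b) - m a) =
      ∏ c ∈ Dp C b, (α + B * ch 1 d a c + B' * ch 1 d a (c + c)) := by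
    intro a
    rw [← exp_zt]
    have h4 : ((m (a + b) - m a : ℤ) : ℂ) = ∑ c ∈ Dp C b, gx (ch 1 d a c) := by
      rw [← ev_diff3 C hC, hm, hm]
      push_cast
      rfl
    rw [h4, mul_sum, Complex.exp_sum]
    refine prod_congr rfl fun c _ => ?_
    rw [hB _ (ch_three a c), ch_add_self]
  rw [sum_congr rfl fun a _ => h3 a] at h1
  have hn : (Fintype.card (Gr 1 d) : ℂ) ≠ 0 := by
    rw [card_Gr]
    have : 0 < (1 + 2) ^ (d + 1) := by positivity
    exact_mod_cast this.ne'
  have hD : ∀ c ∈ Dp C b, b ⬝ᵥ c = 1 := fun c hc => (mem_filter.1 hc).2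
  have hαz : α = 0 → 2 * Real.cos (3 * t) + 1 = 0 := by
    intro h
    rw [hα, div_eq_zero_iff] at h
    rcases h with h | h
    · exact_mod_cast h
    · norm_num at h
  have n10 : (1 : ZMod (1 + 2)) ≠ 0 := by decide
  have n20 : (1 + 1 : ZMod (1 + 2)) ≠ 0 := by decide
  have n40 : (1 + 1 + (1 + 1) : ZMod (1 + 2)) ≠ 0 := by decide
  have hz : ∀ (x : Gr 1 d), b ⬝ᵥ x ≠ 0 → x ≠ 0 := by
    rintro x h rfl
    exact h (dotProduct_zero b)
  have hcases : (Dp C b).card = 0 ∨ (Dp C b).card = 1 ∨ (Dp C b).card = 2 := by omega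
  rcases hcases with h0 | h0 | h0
  · rw [card_eq_zero.1 h0] at h1
    simp only [prod_empty, sum_const, card_univ, nsmul_eq_mul, mul_one] at h1
    exact absurd h1 hn
  · obtain ⟨c, hc⟩ := card_eq_one.1 h0
    have hc1 := hD c (by rw [hc]; exact mem_singleton_self c)
    rw [hc] at h1
    simp only [prod_singleton, sum_add_distrib, ← mul_sum, sum_const, card_univ,
      nsmul_eq_mul] at h1
    rw [sum_ch_left3 c (hz c (by rw [hc1]; exact n10)),
      sum_ch_left3 (c + c) (hz _ (by rw [dotProduct_add, hc1]; exact n20)), mul_zero, mul_zero,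
      add_zero, add_zero] at h1
    exact hαz ((mul_eq_zero.1 h1).resolve_left hn)
  · obtain ⟨c, c', hne, hc⟩ := card_eq_two.1 h0
    have hc1 := hD c (by rw [hc]; exact mem_insert_self _ _)
    have hc2 := hD c' (by rw [hc]; exact mem_insert_of_mem (mem_singleton_self c'))
    rw [hc] at h1
    have htri : ∀ x : Gr 1 d, x + x + x = 0 := by
      intro x
      funext i
      have key : ∀ y : ZMod (1 + 2), y + y + y = 0 := by decide
      exact key (x i)
    have e1 : c + c + c' ≠ 0 := by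
      intro h
      refine hne ?_
      have := htri c
      exact add_left_cancel (this.trans h.symm)
    have e2 : c + (c' + c') ≠ 0 := by
      intro h
      refine hne ?_
      have h5 := htri c'
      rw [add_assoc] at h5
      exact add_right_cancel (h.trans h5.symm)
    have h5 : ∀ a, ∏ x ∈ ({c, c'} : Finset (Gr 1 d)), (α + B * ch 1 d a x + B' * ch 1 d a (x + x)) =
        α ^ 2 + α * B * ch 1 d a c + α * B' * ch 1 d a (c + c) + α * B * ch 1 d a c' +
        α * B' * ch 1 d a (c' + c') + B * B * ch 1 d a (c + c') + B * B' * ch 1 d a (c + c + c') +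
        B * B' * ch 1 d a (c + (c' + c')) + B' * B' * ch 1 d a (c + c + (c' + c')) := by
      intro a
      rw [prod_pair hne]
      simp only [chars.add_right]
      ring
    rw [sum_congr rfl fun a _ => h5 a] at h1
    simp only [sum_add_distrib, ← mul_sum, sum_const, card_univ, nsmul_eq_mul] at h1
    rw [sum_ch_left3 c (hz c (by rw [hc1]; exact n10)),
      sum_ch_left3 (c + c) (hz _ (by rw [dotProduct_add, hc1]; exact n20)),
      sum_ch_left3 c' (hz c' (by rw [hc2]; exact n10)),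
      sum_ch_left3 (c' + c') (hz _ (by rw [dotProduct_add, hc2]; exact n20)),
      sum_ch_left3 (c + c') (hz _ (by rw [dotProduct_add, hc1, hc2]; exact n20)),
      sum_ch_left3 (c + c + c') e1, sum_ch_left3 (c + (c' + c')) e2,
      sum_ch_left3 (c + c + (c' + c')) (hz _ (by
        rw [dotProduct_add, dotProduct_add, dotProduct_add, hc1, hc2]; exact n40))] at h1
    simp only [mul_zero, add_zero] at h1
    exact hαz (pow_eq_zero_iff (two_ne_zero) |>.1 ((mul_eq_zero.1 h1).resolve_left hn))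

end Pool.Agent.T9h68.UM
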