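import Pool.Agent.T9h68.UM.Three

/-!
# Cayley graphs of `(ℤ/3)^d` of small valency
-/

set_option autoImplicit false

open Finset Matrix

namespace Pool.Agent.T9h68.UM

variable {d : ℕ}

theorem gx_one : gx 1 = -3 := by
  unfold gx; linear_combination om_sum

theorem ev_Dp (C : Finset (Gr 1 d)) (hC : ∀ c ∈ C, -c ∈ C) (b : Gr 1 d) :
    ev C b = (C.card : ℂ) - 3 * (Dp C b).card := by
  have h := ev_diff3 C hC 0 b
  have h0 : ev C (0 : Gr 1 d) = C.card := by
    unfold ev
    simp only [chars.zero_left, sum_const, nsmul_eq_mul, mul_one]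
  have h1 : ∀ c, gx (ch 1 d 0 c) = -3 := by
    intro c; rw [chars.zero_left, gx_one]
  rw [zero_add, h0] at h
  simp only [h1, sum_const, nsmul_eq_mul] at h
  linear_combination h

theorem exists_two (C : Finset (Gr 1 d)) (h0 : (0 : Gr 1 d) ∉ C) (hC : ∀ c ∈ C, -c ∈ C)
    (h : 3 ^ (d + 1) * C.card < 9 * (3 ^ (d + 1) - 1)) :
    ∃ b : Gr 1 d, b ≠ 0 ∧ (Dp C b).card ≤ 2 := by
  classical
  by_contra hno
  push Not at hno
  have h1 : ∑ b : Gr 1 d, ev C b = 0 := by
    unfold ev
    rw [sum_comm]
    refine sum_eq_zero fun c hc => sum_ch_left3 c ?_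
    rintro rfl
    exact h0 hc
  simp only [ev_Dp C hC] at h1
  have h2 : (3 : ℤ) * ∑ b : Gr 1 d, ((Dp C b).card : ℤ) = (3 : ℤ) ^ (d + 1) * C.card := by
    have h3 : ((3 : ℂ) * ∑ b : Gr 1 d, ((Dp C b).card : ℂ)) = (3 : ℂ) ^ (d + 1) * C.card := by
      rw [sum_sub_distrib, ← mul_sum, sum_const, card_univ, card_Gr, nsmul_eq_mul] at h1
      push_cast at h1
      linear_combination -h1
    exact_mod_cast h3
  have h4 : (3 : ℤ) * ((3 : ℤ) ^ (d + 1) - 1) ≤ ∑ b : Gr 1 d, ((Dp C b).card : ℤ) := by
    have h5 : ∑ b : Gr 1 d, (if b = 0 then (0 : ℤ) else 3) ≤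
        ∑ b : Gr 1 d, ((Dp C b).card : ℤ) := by
      refine sum_le_sum fun b _ => ?_
      split_ifs with hb
      · exact Nat.cast_nonneg _
      · exact_mod_cast hno b hb
    have h6 : ∑ b : Gr 1 d, (if b = 0 then (0 : ℤ) else 3) = 3 * ((3 : ℤ) ^ (d + 1) - 1) := by
      have h7 : ∀ b : Gr 1 d, (if b = 0 then (0 : ℤ) else 3) = 3 - (if b = 0 then 3 else 0) := by
        intro b; split_ifs <;> norm_num
      rw [sum_congr rfl fun b _ => h7 b, sum_sub_distrib, sum_ite_eq' univ (0 : Gr 1 d) fun _ => (3 : ℤ),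
        if_pos (mem_univ _), sum_const, card_univ, card_Gr, nsmul_eq_mul]
      push_cast
      norm_num
      ring
    linarith
  have h8 : 1 ≤ 3 ^ (d + 1) := Nat.one_le_pow _ _ (by norm_num)
  zify [h8] at h
  nlinarith

theorem neg_ne_self {x : Gr 1 d} (hx : x ≠ 0) : x ≠ -x := by
  intro h
  refine hx ?_
  funext i
  have key : ∀ y : ZMod (1 + 2), y = -y → y = 0 := by decide
  exact key (x i) (congrFun h i)

/-- the Hamming bound for pairs -/
theorem hamming3 (C : Finset (Gr 1 d)) (h0 : (0 : Gr 1 d) ∉ C) (hC : ∀ c ∈ C, -c ∈ C)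
    (h : 3 ^ (C.card / 2) < 3 ^ (d + 1) * (1 + C.card)) :
    ∃ b : Gr 1 d, b ≠ 0 ∧ (Dp C b).card ≤ 2 := by
  classical
  let e := Fintype.equivFin (Gr 1 d)
  set P : Finset (Gr 1 d) := C.filter fun c => e c < e (-c) with hP
  have hPC : ∀ x ∈ P, x ∈ C ∧ e x < e (-x) := fun x hx => mem_filter.1 hx
  have hpm : ∀ x ∈ C, x ∈ P ∨ -x ∈ P := by
    intro x hx
    have hne : x ≠ -x := neg_ne_self (fun h => h0 (h ▸ hx))
    rcases lt_or_gt_of_ne (fun h => hne (e.injective h) : e x ≠ e (-x)) with h1 | h1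
    · left; exact mem_filter.2 ⟨hx, h1⟩
    · right; exact mem_filter.2 ⟨hC x hx, by rw [neg_neg]; exact h1⟩
  have hPn : ∀ x ∈ P, -x ∉ P := by
    intro x hx hx'
    have h1 := (hPC x hx).2
    have h2 := (hPC (-x) hx').2
    rw [neg_neg] at h2
    exact absurd h1 (not_lt.2 h2.le)
  have hcard : C.card = 2 * P.card := by
    have h1 : C = P ∪ P.image (fun x => -x) := by
      ext x
      rw [mem_union, mem_image]
      constructor
      · intro hx
        rcases hpm x hx with h1 | h1
        · left; exact h1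
        · right; exact ⟨-x, h1, neg_neg x⟩
      · rintro (h1 | ⟨y, h1, rfl⟩)
        · exact (hPC x h1).1
        · exact hC y (hPC y h1).1
    have h2 : Disjoint P (P.image (fun x => -x)) := by
      rw [disjoint_left]
      intro x hx hx'
      rw [mem_image] at hx'
      obtain ⟨y, hy, rfl⟩ := hx'
      exact hPn y hy hx
    rw [h1, card_union_of_disjoint h2, card_image_of_injective _ neg_injective]
    ring
  let err : Gr 1 d → Gr 1 d → ZMod 3 := fun c x =>
    (if x = c then 1 else 0) - (if x = -c then 1 else 0)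
  have herr : ∀ c ∈ insert 0 C, ∀ c' ∈ insert 0 C, c ≠ 0 → (∀ x ∈ P, err c x = err c' x) →
      c = c' := by
    intro c hc c' _ hc0 hx
    have hcC : c ∈ C := (mem_insert.1 hc).resolve_left hc0
    have hne := neg_ne_self hc0
    rcases hpm c hcC with h1 | h1
    · have h2 := hx c h1
      simp only [err, if_true, if_neg hne] at h2
      by_contra h3
      rw [if_neg h3] at h2
      split_ifs at h2 <;> exact absurd h2 (by decide)
    · have h2 := hx (-c) h1
      simp only [err, if_true, if_neg hne.symm] at h2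
      by_contra h3
      have h4 : ¬ (-c = -c') := fun h => h3 (neg_injective h)
      rw [if_neg h4] at h2
      split_ifs at h2 <;> exact absurd h2 (by decide)
  let Ψ : Gr 1 d × Gr 1 d → (P → ZMod 3) := fun y x => y.1 ⬝ᵥ x.1 + err y.2 x.1
  have hcardlt : (univ : Finset (P → ZMod 3)).card <
      ((univ : Finset (Gr 1 d)) ×ˢ (insert 0 C)).card := by
    rw [card_product, card_univ, card_univ, card_Gr, card_insert_of_notMem h0]
    rw [Fintype.card_fun, ZMod.card, Fintype.card_coe]
    have h5 : P.card = C.card / 2 := by omega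
    rw [h5, add_comm C.card 1]
    exact h
  obtain ⟨⟨b, c⟩, hx, ⟨b', c'⟩, hy, hne, heq⟩ := exists_ne_map_eq_of_card_lt_of_maps_to
    (f := Ψ) hcardlt (fun _ _ => mem_univ _)
  rw [mem_product] at hx hy
  have heq' : ∀ x ∈ P, b ⬝ᵥ x + err c x = b' ⬝ᵥ x + err c' x := fun x hx =>
    congrFun heq ⟨x, hx⟩
  have hbb : b - b' ≠ 0 := by
    intro h1
    have h2 : b = b' := sub_eq_zero.1 h1
    subst h2
    have h3 : ∀ x ∈ P, err c x = err c' x := fun x hx => add_left_cancel (heq' x hx)
    by_cases hc : c = 0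
    · by_cases hc' : c' = 0
      · exact hne (by rw [hc, hc'])
      · exact hne (by rw [herr c' hy.2 c hx.2 hc' fun x hx => (h3 x hx).symm])
    · exact hne (by rw [herr c hx.2 c' hy.2 hc h3])
  refine ⟨b - b', hbb, ?_⟩
  let s : Gr 1 d → Gr 1 d := fun y => if (b - b') ⬝ᵥ y = 1 then y else -y
  have hsub : Dp C (b - b') ⊆ {s c, s c'} := by
    intro x hxD
    obtain ⟨hxC, hx1⟩ := mem_filter.1 hxD
    have hs : ∀ y, x = y ∨ x = -y → x = s y := by
      rintro y (rfl | h1)
      · simp only [s]; rw [if_pos hx1]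
      · simp only [s]
        rw [if_neg]
        · exact h1
        · intro h2
          rw [h1, dotProduct_neg, h2] at hx1
          exact absurd hx1 (by decide)
    have h3 : ∀ y ∈ P, (b - b') ⬝ᵥ y ≠ 0 → (y = c ∨ y = -c) ∨ (y = c' ∨ y = -c') := by
      intro y hy h4
      by_contra h5
      push Not at h5
      obtain ⟨⟨h6, h7⟩, h8, h9⟩ := h5
      have h10 := heq' y hy
      simp only [err, if_neg h6, if_neg h7, if_neg h8, if_neg h9, sub_self, add_zero] at h10
      refine h4 ?_
      rw [sub_dotProduct, h10, sub_self]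
    rw [mem_insert, mem_singleton]
    have h11 : (x = c ∨ x = -c) ∨ (x = c' ∨ x = -c') := by
      rcases hpm x hxC with h12 | h12
      · exact h3 x h12 (by rw [hx1]; decide)
      · have h13 := h3 (-x) h12 (by rw [dotProduct_neg, hx1]; decide)
        rcases h13 with (h | h) | (h | h)
        · left; right; rw [← h, neg_neg]
        · left; left; exact neg_injective h
        · right; right; rw [← h, neg_neg]
        · right; left; exact neg_injective h
    rcases h11 with h12 | h12
    · left; exact hs c h12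
    · right; exact hs c' h12
  exact (card_le_card hsub).trans card_le_two

end Pool.Agent.T9h68.UM
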