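import Mathlib

/-!
# Bent functions with values in the powers of one number: the number is a unit
-/

set_option autoImplicit false

open Finset

namespace Pool.Agent.T9h68.UM

/-- an element of all valuation rings is integral -/
theorem isIntegral_of_forall {K : Type} [Field K] {z : K}
    (h : ∀ V : ValuationSubring K, z ∈ V) : IsIntegral ℤ z := by
  by_contra hz
  have hR : z ∉ (integralClosure ℤ K).toSubring := fun h1 => hz h1
  have : IsIntegrallyClosedIn (integralClosure ℤ K).toSubring K :=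
    inferInstanceAs (IsIntegrallyClosedIn (integralClosure ℤ K) K)
  obtain ⟨V, -, hV⟩ := Subring.exists_le_valuationSubring_of_isIntegrallyClosedIn hR
  exact hV (h V)

/-- characters of values roots of unity, orthogonality -/
structure Chars {G : Type} [Fintype G] [AddCommGroup G] (K : Type) [Field K] (ch : G → G → K)
    (N : ℕ) : Prop where
  zero_left : ∀ x, ch 0 x = 1
  root : ∀ a x, ch a x ^ N = 1
  Npos : 0 < N
  symm : ∀ a x, ch a x = ch x a
  add_right : ∀ a x y, ch a (x + y) = ch a x * ch a y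
  ortho : ∀ a, a ≠ 0 → ∑ x, ch a x = 0

variable {G : Type} [Fintype G] [AddCommGroup G]

theorem val_ch {K : Type} [Field K] {ch : G → G → K} {N : ℕ} (hc : Chars K ch N)
    {Γ₀ : Type} [LinearOrderedCommGroupWithZero Γ₀] (v : Valuation K Γ₀) (a x : G) :
    v (ch a x) = 1 := by
  have h := congrArg v (hc.root a x)
  rw [map_pow, map_one] at h
  rcases lt_trichotomy (v (ch a x)) 1 with h1 | h1 | h1
  · exact absurd h (pow_lt_one₀ zero_le h1 hc.Npos.ne').ne
  · exact h1
  · exact absurd h (one_lt_pow₀ h1 hc.Npos.ne').ne'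

theorem Chars.zero_right {K : Type} [Field K] {ch : G → G → K} {N : ℕ} (hc : Chars K ch N)
    (a : G) : ch a 0 = 1 := by rw [hc.symm, hc.zero_left]

theorem Chars.inv {K : Type} [Field K] {ch : G → G → K} {N : ℕ} (hc : Chars K ch N)
    (a x : G) : ch a x * ch a (-x) = 1 := by
  rw [← hc.add_right, add_neg_cancel, hc.zero_right]

theorem Chars.add_left {K : Type} [Field K] {ch : G → G → K} {N : ℕ} (hc : Chars K ch N)
    (a b x : G) : ch (a + b) x = ch a x * ch b x := by
  rw [hc.symm, hc.add_right, hc.symm x, hc.symm x]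

-- inversion
open Classical in
theorem Chars.inversion {K : Type} [Field K] {ch : G → G → K} {N : ℕ} (hc : Chars K ch N)
    (f : G → K) (b : G) :
    ∑ x, (∑ a, f a * ch a x) * ch b (-x) = (Fintype.card G : K) * f b := by
  have h1 : ∀ x, (∑ a, f a * ch a x) * ch b (-x) = ∑ a, f a * ch (a - b) x := by
    intro x
    rw [sum_mul]
    refine sum_congr rfl fun a _ => ?_
    rw [mul_assoc]
    congr 1
    have h2 : ch a x = ch (a - b) x * ch b x := by
      rw [← hc.add_left, sub_add_cancel]
    rw [h2, mul_assoc, hc.inv, mul_one]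
  rw [sum_congr rfl fun x _ => h1 x, sum_comm]
  rw [sum_eq_single b]
  · rw [sub_self]
    simp only [hc.zero_left, mul_one, sum_const, card_univ, nsmul_eq_mul]
  · intro a _ hab
    rw [← mul_sum, hc.ortho _ (sub_ne_zero.2 hab), mul_zero]
  · intro h; exact absurd (mem_univ b) h

-- the key inequality
open Classical in
theorem val_le {K : Type} [Field K] [CharZero K] {ch : G → G → K} {N : ℕ} (hc : Chars K ch N)
    {Γ₀ : Type} [LinearOrderedCommGroupWithZero Γ₀] (v : Valuation K Γ₀) (z : K) (hz : z ≠ 0)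
    (m : G → ℤ) (hm : ∀ a, a ≠ 0 → m a < m 0) (hG : ∃ a : G, a ≠ 0)
    (hF : ∀ x, (∑ a, z ^ m a * ch a (-x)) * (∑ a, z ^ (-m a) * ch a x) =
      (Fintype.card G : K)) : v z ≤ 1 := by
  by_contra hlt
  rw [not_le] at hlt
  have hvz : v z ≠ 0 := (Valuation.ne_zero_iff v).2 hz
  obtain ⟨b, hb⟩ := hG
  have hn : (Fintype.card G : K) ≠ 0 := by
    have : 0 < Fintype.card G := Fintype.card_pos
    exact_mod_cast this.ne'
  have hvn : v (Fintype.card G : K) ≠ 0 := (Valuation.ne_zero_iff v).2 hn
  have h1 : ∀ x, v (∑ a, z ^ m a * ch a (-x)) = v z ^ m 0 := by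
    intro x
    rw [← add_sum_erase univ _ (mem_univ (0 : G)), hc.zero_left, mul_one]
    have h2 : v (∑ a ∈ univ.erase 0, z ^ m a * ch a (-x)) < v (z ^ m 0) := by
      refine Valuation.map_sum_lt v ?_ ?_
      · exact (Valuation.ne_zero_iff v).2 (zpow_ne_zero _ hz)
      · intro a ha
        rw [map_mul, val_ch hc v, mul_one, map_zpow₀, map_zpow₀]
        exact zpow_lt_zpow_right₀ hlt (hm a (ne_of_mem_erase ha))
    rw [Valuation.map_add_eq_of_lt_left v h2, map_zpow₀]
  have h3 : ∀ x, v (∑ a, z ^ (-m a) * ch a x) = v (Fintype.card G : K) * v z ^ (-m 0) := by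
    intro x
    have h4 := congrArg v (hF x)
    rw [map_mul, h1 x] at h4
    rw [← h4, zpow_neg, mul_comm (v z ^ m 0), mul_assoc, mul_inv_cancel₀ (zpow_ne_zero _ hvz),
      mul_one]
  have h5 := congrArg v (hc.inversion (fun a => z ^ (-m a)) b)
  have h6 : v (∑ x, (∑ a, z ^ (-m a) * ch a x) * ch b (-x)) ≤
      v (Fintype.card G : K) * v z ^ (-m 0) := by
    refine Valuation.map_sum_le v fun x _ => ?_
    rw [map_mul, val_ch hc v, mul_one, h3 x]
  rw [h5, map_mul, map_zpow₀] at h6
  have h7 : v z ^ (-m b) ≤ v z ^ (-m 0) := by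
    by_contra h8
    rw [not_le] at h8
    exact absurd h6 (not_le.2 (mul_lt_mul_of_pos_left h8 (zero_lt_iff.2 hvn)))
  have h8 := (zpow_le_zpow_iff_right₀ hlt).1 h7
  have h9 := hm b hb
  omega

/-- **The base is a unit.** -/
theorem unit {K : Type} [Field K] [CharZero K] {ch : G → G → K} {N : ℕ} (hc : Chars K ch N)
    (z : K) (hz : z ≠ 0)
    (m : G → ℤ) (hm : ∀ a, a ≠ 0 → m a < m 0) (hG : ∃ a : G, a ≠ 0)
    (hF : ∀ x, (∑ a, z ^ m a * ch a (-x)) * (∑ a, z ^ (-m a) * ch a x) =
      (Fintype.card G : K)) : IsIntegral ℤ z ∧ IsIntegral ℤ z⁻¹ := by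
  refine ⟨isIntegral_of_forall fun V => ?_, isIntegral_of_forall fun V => ?_⟩
  · rw [← V.valuation_le_one_iff]
    exact val_le hc V.valuation z hz m hm hG hF
  · rw [← V.valuation_le_one_iff]
    refine val_le hc V.valuation z⁻¹ (inv_ne_zero hz) m hm hG fun x => ?_
    have h := hF (-x)
    rw [neg_neg] at h
    simp only [inv_zpow', neg_neg]
    rw [mul_comm]
    exact h

end Pool.Agent.T9h68.UM
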